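import Pool.Agent.H828.HC.Upper

set_option autoImplicit false

namespace Pool.Agent.H828.HC

open SimpleGraph Finset

lemma numeric (N k a χ τ : ℕ) (hN : 1 ≤ N) (h1 : k ≤ a + χ) (h2 : χ * (χ - 1) ≤ 2 * τ)
    (h3 : k * τ ≤ 3 * N)
    (h4 : ∀ u : ℕ, 0 < u → (a : ℤ) ^ 2 * u ≤ ((N : ℤ) + u) * (a + u + 2 * τ)) :
    (k : ℝ) ≤ √N + 13 * √√N := by
  set s : ℝ := √√(N : ℝ) with hs
  have hN' : (1 : ℝ) ≤ N := by exact_mod_cast hN
  have hs2 : s ^ 2 = √(N : ℝ) := Real.sq_sqrt (Real.sqrt_nonneg _)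
  have hs4 : s ^ 4 = N := by
    have : s ^ 4 = (s ^ 2) ^ 2 := by ring
    rw [this, hs2, Real.sq_sqrt (by linarith)]
  have hs1 : 1 ≤ s := by
    rw [hs, Real.one_le_sqrt, Real.one_le_sqrt]
    exact hN'
  rw [← hs2]
  by_contra hcon
  push Not at hcon
  have hk : s ^ 2 < k := by nlinarith
  -- τ
  have hτ : (τ : ℝ) ≤ 3 * s ^ 2 := by
    have h5 : (k : ℝ) * τ ≤ 3 * s ^ 4 := by
      rw [hs4]; exact_mod_cast h3
    by_contra hc
    push Not at hc
    have h6 : s ^ 2 * (3 * s ^ 2) < k * τ := by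
      have h7 : 0 < s ^ 2 := by positivity
      nlinarith
    nlinarith
  have hτ0 : (0 : ℝ) ≤ τ := Nat.cast_nonneg _
  have hχ : (χ : ℝ) ≤ 4 * s := by
    have h5 : (χ : ℝ) * (χ - 1) ≤ 2 * τ := by
      rcases Nat.eq_zero_or_pos χ with h0 | h0
      · rw [h0]; simp
      · have : ((χ * (χ - 1) : ℕ) : ℝ) ≤ ((2 * τ : ℕ) : ℝ) := by exact_mod_cast h2
        push_cast [Nat.cast_sub h0] at this
        exact this
    by_contra hc
    push Not at hc
    nlinarith
  -- u
  set u : ℕ := ⌈s ^ 3⌉₊ with hu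
  have hs3 : 1 ≤ s ^ 3 := one_le_pow₀ hs1
  have hu1 : s ^ 3 ≤ u := Nat.le_ceil _
  have hu2 : (u : ℝ) ≤ 2 * s ^ 3 := by
    have := Nat.ceil_lt_add_one (show 0 ≤ s ^ 3 by linarith)
    rw [← hu] at this
    linarith
  have hu0 : 0 < u := by
    rw [hu, Nat.ceil_pos]; linarith
  have h5 : (a : ℝ) ^ 2 * u ≤ (s ^ 4 + u) * (a + u + 2 * τ) := by
    rw [hs4]
    exact_mod_cast h4 u hu0
  have hu0' : (0 : ℝ) < u := by linarith
  have ha0 : (0 : ℝ) ≤ a := Nat.cast_nonneg _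
  -- divide by `u`
  have h6 : (a : ℝ) ^ 2 ≤ 2 * s * a + s ^ 4 + 14 * s ^ 3 := by
    set w : ℝ := s ^ 4 / u with hw
    have hwu : w * u = s ^ 4 := by rw [hw]; field_simp
    have hw0 : 0 ≤ w := by positivity
    have hws : w ≤ s := by
      rw [hw, div_le_iff₀ hu0']
      nlinarith
    have h7 : (a : ℝ) ^ 2 ≤ (w + 1) * (a + u + 2 * τ) := by
      have : (a : ℝ) ^ 2 * u ≤ ((w + 1) * (a + u + 2 * τ)) * u := by
        calc (a : ℝ) ^ 2 * u ≤ (s ^ 4 + u) * (a + u + 2 * τ) := h5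
          _ = ((w + 1) * (a + u + 2 * τ)) * u := by rw [← hwu]; ring
      exact le_of_mul_le_mul_right this hu0'
    have h8 : (w + 1) * (a + u + 2 * τ) = w * a + w * u + 2 * (w * τ) + a + u + 2 * τ := by ring
    rw [h8, hwu] at h7
    have h9 : w * a ≤ s * a := mul_le_mul_of_nonneg_right hws ha0
    have h10 : w * τ ≤ s * (3 * s ^ 2) := mul_le_mul hws hτ hτ0 (by linarith)
    have h11 : (a : ℝ) ≤ s * a := by nlinarith
    have h12 : s ^ 2 ≤ s ^ 3 := by nlinarith [sq_nonneg s]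
    nlinarith
  have h7 : (a : ℝ) ≤ s ^ 2 + 9 * s := by
    by_contra hc
    push Not at hc
    have h8 : 0 ≤ s ^ 2 := sq_nonneg s
    have h9 : (s ^ 2 + 8 * s) < a - s := by linarith
    have h10 : (s ^ 2 + 8 * s) ^ 2 < (a - s) ^ 2 := by
      apply pow_lt_pow_left₀ h9 (by positivity) (by norm_num)
    have h11 : s ^ 2 ≤ s ^ 3 := by nlinarith [sq_nonneg s]
    nlinarith
  have h8 : (k : ℝ) ≤ a + χ := by exact_mod_cast h1
  linarith

variable {V : Type*} {G : SimpleGraph V} {n : ℤ} {f : ℤ → V}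

lemma Ham.emod (h : Ham G n f) (t : ℤ) : f (t % n) = f t := by
  have hp : Function.Periodic f n := h.per
  have h1 := (hp.int_mul (t / n)) (t % n)
  rw [← h1]
  congr 1
  have := Int.emod_add_mul_ediv t n
  simp only [Int.cast_id]
  linarith [mul_comm (t / n) n]

lemma ham_edges_le [Fintype V] [DecidableEq V] (h : Ham G (Fintype.card V) f)
    (hN : 0 < Fintype.card V)
    (C : Finset (Sym2 V)) (hC : ∀ e, e ∈ C ↔ Chord G f e) :
    G.edgeSet.ncard ≤ Fintype.card V + C.card := by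
  classical
  set H : Finset (Sym2 V) := (range (Fintype.card V)).image
    (fun t : ℕ => s(f (t : ℤ), f ((t : ℤ) + 1))) with hH
  have h1 : H.card ≤ Fintype.card V := by
    refine card_image_le.trans ?_
    rw [card_range]
  have h2 : G.edgeSet ⊆ ((H ∪ C : Finset (Sym2 V)) : Set (Sym2 V)) := by
    intro e he
    rw [mem_coe, mem_union]
    by_cases hh : HamEdge f e
    · left
      obtain ⟨t, ht⟩ := hh
      have hN0 : (0 : ℤ) < Fintype.card V := by omega
      have h3 := Int.emod_nonneg t hN0.ne'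
      have h4 := Int.emod_lt_of_pos t hN0
      rw [hH, mem_image]
      refine ⟨(t % (Fintype.card V : ℤ)).toNat, ?_, ?_⟩
      · rw [mem_range]; omega
      · rw [Int.toNat_of_nonneg h3, ht]
        have e1 : f (t % (Fintype.card V : ℤ)) = f t := h.emod t
        have e2 : f (t % (Fintype.card V : ℤ) + 1) = f (t + 1) := by
          rw [← h.emod (t % (Fintype.card V : ℤ) + 1), ← h.emod (t + 1), Int.emod_add_emod]
        rw [e1, e2]
    · right
      rw [hC]
      exact ⟨he, hh⟩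
  calc G.edgeSet.ncard ≤ ((H ∪ C : Finset (Sym2 V)) : Set (Sym2 V)).ncard :=
        Set.ncard_le_ncard h2 (Finset.finite_toSet _)
    _ = (H ∪ C).card := Set.ncard_coe_finset _
    _ ≤ H.card + C.card := card_union_le _ _
    _ ≤ _ := by omega

/-- The upper bound. -/
theorem upper [Fintype V] [DecidableEq V] (hN : 2 ≤ Fintype.card V) (hH : G.IsHamiltonian)
    (hD : Distinct G) :
    (G.edgeSet.ncard : ℝ) ≤ Fintype.card V + √(Fintype.card V) + 13 * √√(Fintype.card V) := by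
  classical
  obtain ⟨a, p, hp⟩ := hH (by omega)
  obtain ⟨f, hf, hsurj⟩ := exists_ham p hp
  set C : Finset (Sym2 V) := univ.filter (fun e => Chord G f e) with hC
  have hC' : ∀ e, e ∈ C ↔ Chord G f e := by intro e; simp [hC]
  have h1 := ham_edges_le hf (by omega) C hC'
  have h2 : (C.card : ℝ) ≤ √(Fintype.card V) + 13 * √√(Fintype.card V) := by
    rcases C.eq_empty_or_nonempty with h0 | h0
    · rw [h0]; simp; positivity
    · obtain ⟨a, χ, τ, k1, k2, k3, k4⟩ := count hf rfl hsurj hD C hC' h0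
      exact numeric _ _ a χ τ (by omega) k1 k2 k3 k4
  have h3 : (G.edgeSet.ncard : ℝ) ≤ Fintype.card V + C.card := by exact_mod_cast h1
  linarith

end Pool.Agent.H828.HC
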