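import Mathlib

set_option autoImplicit false

namespace Pool.Agent.H828.HC

open Finset

/-- The number of windows of length `u` that contain both of two integers. -/
lemma window_pair (n u : ℕ) {x y : ℤ} (hx : 0 < x) (hx' : x < n) (hy : 0 < y) :
    (((Ico (-(u : ℤ)) n).filter (fun t => (t < x ∧ x ≤ t + u) ∧ (t < y ∧ y ≤ t + u))).card : ℤ) ≤
      max ((u : ℤ) - |x - y|) 0 := by
  have h1 : (Ico (-(u : ℤ)) n).filter (fun t => (t < x ∧ x ≤ t + u) ∧ (t < y ∧ y ≤ t + u)) ⊆
      Ico (max x y - u) (min x y) := by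
    intro t ht
    rw [mem_filter] at ht
    rw [mem_Ico]
    constructor
    · have := max_le (a := x) (b := y) (c := t + u) ht.2.1.2 ht.2.2.2
      omega
    · exact lt_min ht.2.1.1 ht.2.2.1
  have h2 := card_le_card h1
  rw [Int.card_Ico] at h2
  have h3 : min x y - (max x y - u) = (u : ℤ) - |x - y| := by
    rcases le_total x y with h | h
    · rw [max_eq_right h, min_eq_left h, abs_of_nonpos (by omega)]; ring
    · rw [max_eq_left h, min_eq_right h, abs_of_nonneg (by omega)]; ring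
  rw [h3] at h2
  have h4 : (((u : ℤ) - |x - y|).toNat : ℤ) = max ((u : ℤ) - |x - y|) 0 := Int.toNat_eq_max _
  rw [← h4]
  exact_mod_cast h2

lemma window_single (n u : ℕ) {x : ℤ} (hx : 0 < x) (hx' : x < n) :
    ((Ico (-(u : ℤ)) n).filter (fun t => t < x ∧ x ≤ t + u)).card = u := by
  have h1 : (Ico (-(u : ℤ)) n).filter (fun t => t < x ∧ x ≤ t + u) = Ico (x - u) x := by
    ext t
    rw [mem_filter, mem_Ico, mem_Ico]
    omega
  rw [h1, Int.card_Ico]
  omega

lemma sum_tent (u : ℕ) : ∑ d ∈ Ico 1 u, 2 * ((u : ℤ) - d) ≤ (u : ℤ) * u := by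
  have h : ∀ m : ℕ, ∑ d ∈ range m, 2 * ((m : ℤ) - d) = (m : ℤ) * (m + 1) := by
    intro m
    induction m with
    | zero => simp
    | succ m ih =>
      rw [sum_range_succ]
      have e : ∑ x ∈ range m, 2 * (((m + 1 : ℕ) : ℤ) - x) = 
          ∑ x ∈ range m, 2 * ((m : ℤ) - x) + 2 * m := by
        have e1 : ∑ x ∈ range m, 2 * (((m + 1 : ℕ) : ℤ) - x) =
            ∑ x ∈ range m, (2 * ((m : ℤ) - x) + 2) :=
          sum_congr rfl (fun x _ => by push_cast; ring)
        rw [e1, sum_add_distrib]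
        simp; ring
      rw [e, ih]; push_cast; ring
  rcases Nat.eq_zero_or_pos u with rfl | hu
  · simp
  · have h1 := h u
    rw [range_eq_Ico, sum_eq_sum_Ico_succ_bot hu] at h1
    simp only [Nat.cast_zero, sub_zero, zero_add] at h1
    nlinarith

theorem window {ι : Type*} [DecidableEq ι] (A : Finset ι) (σ : ι → ℤ) (n u τ : ℕ)
    (hσ : ∀ e ∈ A, 0 < σ e ∧ σ e < n) (Good : ι → ι → Prop) [DecidableRel Good]
    (hgood : ∀ e1 ∈ A, ∀ e2 ∈ A, ∀ e3 ∈ A, ∀ e4 ∈ A, e1 ≠ e2 → e3 ≠ e4 → Good e1 e2 → Good e3 e4 →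
      |σ e1 - σ e2| = |σ e3 - σ e4| → (e1 = e3 ∧ e2 = e4) ∨ (e1 = e4 ∧ e2 = e3))
    (hpos : ∀ e1 ∈ A, ∀ e2 ∈ A, e1 ≠ e2 → Good e1 e2 → 1 ≤ |σ e1 - σ e2|)
    (hbad : (A.offDiag.filter (fun p => ¬ Good p.1 p.2)).card ≤ 2 * τ) (hu : 0 < u) :
    (A.card : ℤ) ^ 2 * u ≤ ((n : ℤ) + u) * (A.card + u + 2 * τ) := by
  classical
  set W := Ico (-(u : ℤ)) n with hW
  have hWc : (W.card : ℤ) = n + u := by
    rw [hW, Int.card_Ico]; omega
  let N : ℤ → ℤ := fun t => ((A.filter (fun e => t < σ e ∧ σ e ≤ t + u)).card : ℤ)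
  have hN1 : ∑ t ∈ W, N t = A.card * u := by
    have h1 : ∀ t, N t = ∑ e ∈ A, if (t < σ e ∧ σ e ≤ t + u) then (1 : ℤ) else 0 := by
      intro t
      simp only [N]
      rw [card_filter]; push_cast; rfl
    simp only [h1]
    rw [sum_comm]
    rw [sum_congr rfl (g := fun _ => (u : ℤ))]
    · simp
    · intro e he
      have h2 := window_single n u (hσ e he).1 (hσ e he).2
      have h3 : (∑ t ∈ W, if (t < σ e ∧ σ e ≤ t + u) then (1 : ℤ) else 0) =
          (((Ico (-(u : ℤ)) n).filter (fun t => t < σ e ∧ σ e ≤ t + u)).card : ℤ) := by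
        rw [card_filter]; push_cast; rfl
      rw [h3, h2]
  have hN2 : ∑ t ∈ W, N t ^ 2 ≤ A.card * u + (u : ℤ) * u + 2 * τ * u := by
    have h1 : ∀ t, N t ^ 2 = ∑ e ∈ A, ∑ e' ∈ A,
        if ((t < σ e ∧ σ e ≤ t + u) ∧ (t < σ e' ∧ σ e' ≤ t + u)) then (1 : ℤ) else 0 := by
      intro t
      simp only [N]
      rw [sq, card_filter]
      push_cast
      rw [sum_mul_sum]
      refine sum_congr rfl fun e _ => sum_congr rfl fun e' _ => ?_
      by_cases ha : (t < σ e ∧ σ e ≤ t + u) <;> by_cases hb : (t < σ e' ∧ σ e' ≤ t + u) <;>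
        simp [ha, hb]
    simp only [h1]
    rw [sum_comm]
    have h2 : ∑ e ∈ A, ∑ t ∈ W, ∑ e' ∈ A,
        (if ((t < σ e ∧ σ e ≤ t + u) ∧ (t < σ e' ∧ σ e' ≤ t + u)) then (1 : ℤ) else 0) =
        ∑ p ∈ A ×ˢ A, ((W.filter (fun t => (t < σ p.1 ∧ σ p.1 ≤ t + u) ∧
          (t < σ p.2 ∧ σ p.2 ≤ t + u))).card : ℤ) := by
      rw [sum_product]
      refine sum_congr rfl fun e _ => ?_
      rw [sum_comm]
      refine sum_congr rfl fun e' _ => ?_
      rw [card_filter]; push_cast; rfl
    rw [h2]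
    rw [← Finset.diag_union_offDiag A, sum_union (disjoint_diag_offDiag A)]
    have h3 : ∑ p ∈ A.diag, ((W.filter (fun t => (t < σ p.1 ∧ σ p.1 ≤ t + u) ∧
          (t < σ p.2 ∧ σ p.2 ≤ t + u))).card : ℤ) ≤ A.card * u := by
      rw [sum_diag]
      rw [← nsmul_eq_mul, ← sum_const]
      refine sum_le_sum fun e he => ?_
      have := window_pair n u (hσ e he).1 (hσ e he).2 (hσ e he).1
      simpa using this
    have h4 : ∀ p ∈ A.offDiag, ((W.filter (fun t => (t < σ p.1 ∧ σ p.1 ≤ t + u) ∧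
          (t < σ p.2 ∧ σ p.2 ≤ t + u))).card : ℤ) ≤ max ((u : ℤ) - |σ p.1 - σ p.2|) 0 := by
      intro p hp
      rw [mem_offDiag] at hp
      exact window_pair n u (hσ _ hp.1).1 (hσ _ hp.1).2 (hσ _ hp.2.1).1
    have h5 : ∑ p ∈ A.offDiag, ((W.filter (fun t => (t < σ p.1 ∧ σ p.1 ≤ t + u) ∧
          (t < σ p.2 ∧ σ p.2 ≤ t + u))).card : ℤ) ≤ (u : ℤ) * u + 2 * τ * u := by
      refine (sum_le_sum h4).trans ?_
      rw [← sum_filter_add_sum_filter_not A.offDiag (fun p => Good p.1 p.2)]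
      refine add_le_add ?_ ?_
      · -- good pairs
        set S := A.offDiag.filter (fun p => Good p.1 p.2) with hS
        have h6 : ∑ p ∈ S, max ((u : ℤ) - |σ p.1 - σ p.2|) 0 =
            ∑ p ∈ S.filter (fun p => |σ p.1 - σ p.2|.toNat ∈ Ico 1 u),
              max ((u : ℤ) - |σ p.1 - σ p.2|) 0 := by
          refine (sum_filter_of_ne (s := S) ?_).symm
          intro p hp hne
          rw [hS, mem_filter, mem_offDiag] at hp
          have h7 := hpos p.1 hp.1.1 p.2 hp.1.2.1 hp.1.2.2 hp.2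
          rw [mem_Ico]
          by_contra hcon
          apply hne
          apply max_eq_right
          omega
        rw [h6]
        have h8 : ∀ p ∈ S.filter (fun p => |σ p.1 - σ p.2|.toNat ∈ Ico 1 u),
            |σ p.1 - σ p.2|.toNat ∈ Ico 1 u := fun p hp => (mem_filter.mp hp).2
        rw [← sum_fiberwise_of_maps_to h8]
        refine (sum_le_sum (g := fun d : ℕ => 2 * ((u : ℤ) - d)) ?_).trans (sum_tent u)
        intro d hd
        rw [mem_Ico] at hd
        set F := (S.filter (fun p => |σ p.1 - σ p.2|.toNat ∈ Ico 1 u)).filter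
          (fun p => |σ p.1 - σ p.2|.toNat = d) with hF
        have h9 : ∀ p ∈ F, max ((u : ℤ) - |σ p.1 - σ p.2|) 0 = (u : ℤ) - d := by
          intro p hp
          rw [hF, mem_filter] at hp
          have h10 := abs_nonneg (σ p.1 - σ p.2)
          have h11 : |σ p.1 - σ p.2| = d := by omega
          rw [h11]
          apply max_eq_left
          omega
        rw [sum_congr rfl h9, sum_const, nsmul_eq_mul]
        have h12 : F.card ≤ 2 := by
          rcases F.eq_empty_or_nonempty with h13 | ⟨p0, hp0⟩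
          · rw [h13]; simp
          · have h14 : F ⊆ {p0, (p0.2, p0.1)} := by
              intro p hp
              have e0 := hp0
              have e1 := hp
              rw [hF, mem_filter, mem_filter, hS, mem_filter, mem_offDiag] at e0 e1
              have h15 := hgood p.1 e1.1.1.1.1 p.2 e1.1.1.1.2.1 p0.1 e0.1.1.1.1 p0.2 e0.1.1.1.2.1
                e1.1.1.1.2.2 e0.1.1.1.2.2 e1.1.1.2 e0.1.1.2 (by
                  have h16 := abs_nonneg (σ p.1 - σ p.2)
                  have h17 := abs_nonneg (σ p0.1 - σ p0.2)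
                  omega)
              rw [mem_insert, mem_singleton]
              rcases h15 with ⟨h16, h17⟩ | ⟨h16, h17⟩
              · left; exact Prod.ext h16 h17
              · right; exact Prod.ext h16 h17
            exact (card_le_card h14).trans card_le_two
        have h13 : (0 : ℤ) ≤ (u : ℤ) - d := by omega
        have h14 : (F.card : ℤ) ≤ 2 := by exact_mod_cast h12
        exact mul_le_mul_of_nonneg_right h14 h13
      · -- bad pairs
        have h6 : ∀ p ∈ A.offDiag.filter (fun p => ¬ Good p.1 p.2),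
            max ((u : ℤ) - |σ p.1 - σ p.2|) 0 ≤ u := by
          intro p _
          have := abs_nonneg (σ p.1 - σ p.2)
          apply max_le <;> omega
        refine (sum_le_sum h6).trans ?_
        rw [sum_const, nsmul_eq_mul]
        have h7 : ((A.offDiag.filter (fun p => ¬ Good p.1 p.2)).card : ℤ) ≤ 2 * τ := by
          exact_mod_cast hbad
        exact mul_le_mul_of_nonneg_right h7 (by omega)
    linarith
  have hCS := sq_sum_le_card_mul_sum_sq (s := W) (f := N)
  rw [hN1, hWc] at hCS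
  have h1 : ((A.card : ℤ) * u) ^ 2 ≤ ((n : ℤ) + u) * (A.card * u + (u : ℤ) * u + 2 * τ * u) :=
    hCS.trans (mul_le_mul_of_nonneg_left hN2 (by positivity))
  have hu' : (0 : ℤ) < u := by exact_mod_cast hu
  have h2 : ((A.card : ℤ) ^ 2 * u) * u ≤ (((n : ℤ) + u) * (A.card + u + 2 * τ)) * u := by
    calc ((A.card : ℤ) ^ 2 * u) * u = ((A.card : ℤ) * u) ^ 2 := by ring
      _ ≤ _ := h1
      _ = _ := by ring
  exact le_of_mul_le_mul_right h2 hu'

end Pool.Agent.H828.HC
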