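import Pool.Agent.H828.HC.Struct
import Pool.Agent.H828.HC.Window

set_option autoImplicit false

namespace Pool.Agent.H828.HC

open SimpleGraph Finset

variable {V : Type*} {G : SimpleGraph V} {n : ℤ} {f : ℤ → V}

/-- Any two different cycles (cycles with different edge sets) have different lengths. -/
def Distinct (G : SimpleGraph V) : Prop :=
  ∀ (u v : V) (p : G.Walk u u) (q : G.Walk v v), p.IsCycle → q.IsCycle →
    p.length = q.length → {e | e ∈ p.edges} = {e | e ∈ q.edges}

lemma cycSet_inj (hD : Distinct G) {T T' : Set (Sym2 V)} (hT : ∀ e ∈ T, ¬ HamEdge f e)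
    (hT' : ∀ e ∈ T', ¬ HamEdge f e) {ℓ : ℤ} (h : CycSet G f T ℓ) (h' : CycSet G f T' ℓ) :
    T = T' := by
  obtain ⟨u, p, hp, hpl, hpe⟩ := h
  obtain ⟨v, q, hq, hql, hqe⟩ := h'
  have h1 := hD u v p q hp hq (by omega)
  ext e
  constructor
  · intro he
    have h2 : e ∈ {e | e ∈ p.edges} := (hpe e (hT e he)).mpr he
    rw [h1] at h2
    exact (hqe e (hT e he)).mp h2
  · intro he
    have h2 : e ∈ {e | e ∈ q.edges} := (hqe e (hT' e he)).mpr he
    rw [← h1] at h2
    exact (hpe e (hT' e he)).mp h2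

lemma cycSet_le [Fintype V] {T : Set (Sym2 V)} {ℓ : ℤ} (h : CycSet G f T ℓ) :
    3 ≤ ℓ ∧ ℓ ≤ Fintype.card V := by
  obtain ⟨u, p, hp, hpl, _⟩ := h
  have h1 := hp.three_le_length
  have h2 := hp.support_nodup.length_le_card
  rw [List.length_tail, Walk.length_support] at h2
  omega

lemma pairs_card [DecidableEq V] {C : Finset (Sym2 V)} {𝒯 : Finset (Finset (Sym2 V))}
    {c : Sym2 V}
    (h𝒯 : ∀ e1 ∈ C, ∀ e2 ∈ C, c ≠ e1 → c ≠ e2 → e1 ≠ e2 → (∃ ℓ, CycSet G f {c, e1, e2} ℓ) →
      insert c {e1, e2} ∈ 𝒯)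
    (S : Finset (Sym2 V × Sym2 V))
    (hS : ∀ p ∈ S, p.1 ∈ C ∧ p.2 ∈ C ∧ p.1 ≠ p.2 ∧ c ≠ p.1 ∧ c ≠ p.2 ∧
      ∃ ℓ, CycSet G f {c, p.1, p.2} ℓ) : 
    S.card ≤ 2 * (𝒯.filter (fun T => c ∈ T)).card := by
  classical
  set g : Sym2 V × Sym2 V → Finset (Sym2 V) := fun p => insert c {p.1, p.2} with hg
  refine (card_le_mul_card_image (f := g) S 2 ?_).trans ?_
  · intro T hT
    rcases (S.filter (fun x => g x = T)).eq_empty_or_nonempty with h0 | ⟨p0, hp0⟩
    · rw [h0]; simp
    · have h1 : S.filter (fun x => g x = T) ⊆ {p0, (p0.2, p0.1)} := by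
        intro p hp
        rw [mem_filter] at hp hp0
        obtain ⟨_, _, _, a4, a5, _⟩ := hS p hp.1
        obtain ⟨_, _, _, b4, b5, _⟩ := hS p0 hp0.1
        have h2 : g p = g p0 := by rw [hp.2, hp0.2]
        have h3 : ({p.1, p.2} : Finset (Sym2 V)) = {p0.1, p0.2} := by
          have e1 : (g p).erase c = {p.1, p.2} := by
            rw [hg]
            apply erase_insert
            simp [a4, a5]
          have e2 : (g p0).erase c = {p0.1, p0.2} := by
            rw [hg]
            apply erase_insert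
            simp [b4, b5]
          rw [← e1, ← e2, h2]
        have h4 : ({p.1, p.2} : Set (Sym2 V)) = {p0.1, p0.2} := by
          have := congrArg (fun s : Finset (Sym2 V) => (s : Set (Sym2 V))) h3
          simpa using this
        rw [Set.pair_eq_pair_iff] at h4
        rw [mem_insert, mem_singleton]
        rcases h4 with ⟨h5, h6⟩ | ⟨h5, h6⟩
        · left; exact Prod.ext h5 h6
        · right; exact Prod.ext h5 h6
      exact (card_le_card h1).trans card_le_two
  · apply Nat.mul_le_mul_left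
    apply card_le_card
    intro T hT
    rw [mem_image] at hT
    obtain ⟨p, hp, rfl⟩ := hT
    obtain ⟨a1, a2, a3, a4, a5, a6⟩ := hS p hp
    rw [mem_filter]
    exact ⟨h𝒯 _ a1 _ a2 a4 a5 a3 a6, by simp [hg]⟩

theorem count [Fintype V] (h : Ham G n f) (hn : n = Fintype.card V)
    (hsurj : ∀ (a : ℤ) (v : V), ∃ i, a ≤ i ∧ i < a + n ∧ f i = v) (hD : Distinct G)
    (C : Finset (Sym2 V)) (hC : ∀ e, e ∈ C ↔ Chord G f e) (hne : C.Nonempty) :
    ∃ a χ τ : ℕ, C.card ≤ a + χ ∧ χ * (χ - 1) ≤ 2 * τ ∧ C.card * τ ≤ 3 * Fintype.card V ∧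
      ∀ u : ℕ, 0 < u → (a : ℤ) ^ 2 * u ≤ ((Fintype.card V : ℤ) + u) * (a + u + 2 * τ) := by
  classical
  set 𝒯 := (C.powersetCard 3).filter (fun T : Finset (Sym2 V) => ∃ ℓ, CycSet G f (T : Set (Sym2 V)) ℓ)
    with h𝒯
  have hTC : ∀ T ∈ 𝒯, ∀ e ∈ (T : Set (Sym2 V)), ¬ HamEdge f e := by
    intro T hT e he
    rw [h𝒯, mem_filter, mem_powersetCard] at hT
    exact ((hC e).mp (hT.1.1 he)).2
  -- the number of triples
  have hcard : 𝒯.card ≤ Fintype.card V := by
    let L : Finset (Sym2 V) → ℕ := fun T =>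
      if h : ∃ ℓ, CycSet G f (T : Set (Sym2 V)) ℓ then (Classical.choose h).toNat else 0
    have h1 : ∀ T ∈ 𝒯, CycSet G f (T : Set (Sym2 V)) (L T) := by
      intro T hT
      rw [h𝒯, mem_filter] at hT
      have h2 := Classical.choose_spec hT.2
      have h3 := cycSet_le h2
      simp only [L, dif_pos hT.2]
      rw [Int.toNat_of_nonneg (by omega)]
      exact h2
    have h2 : 𝒯.card ≤ (Finset.Icc 1 (Fintype.card V)).card := by
      apply card_le_card_of_injOn L
      · intro T hT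
        have := cycSet_le (h1 T hT)
        rw [coe_Icc, Set.mem_Icc]
        omega
      · intro T hT T' hT' hTT
        have h3 := h1 T hT
        have h4 := h1 T' hT'
        rw [← hTT] at h4
        exact_mod_cast cycSet_inj hD (hTC T hT) (hTC T' hT') h3 h4
    simpa using h2
  -- averaging
  have hsum : ∑ c ∈ C, (𝒯.filter (fun T => c ∈ T)).card = 3 * 𝒯.card := by
    simp_rw [card_filter]
    rw [sum_comm]
    rw [sum_congr rfl (g := fun _ => 3)]
    · simp [mul_comm]
    · intro T hT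
      rw [← card_filter]
      rw [h𝒯, mem_filter, mem_powersetCard] at hT
      have : C.filter (fun c => c ∈ T) = T := by
        ext e
        rw [mem_filter]
        exact ⟨fun h => h.2, fun h => ⟨hT.1.1 h, h⟩⟩
      rw [this, hT.1.2]
  obtain ⟨c, hcC, hcmin⟩ := exists_min_image C (fun c => (𝒯.filter (fun T => c ∈ T)).card) hne
  have hτ : C.card * (𝒯.filter (fun T => c ∈ T)).card ≤ 3 * Fintype.card V := by
    calc C.card * (𝒯.filter (fun T => c ∈ T)).card = ∑ _c' ∈ C, (𝒯.filter (fun T => c ∈ T)).card := by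
          rw [sum_const, smul_eq_mul]
      _ ≤ ∑ c' ∈ C, (𝒯.filter (fun T => c' ∈ T)).card := sum_le_sum hcmin
      _ = 3 * 𝒯.card := hsum
      _ ≤ 3 * Fintype.card V := by omega
  -- end points of `c`
  have hc := (hC c).mp hcC
  obtain ⟨a, b, hab, hb, hcab⟩ : ∃ a b : ℤ, a < b ∧ b < a + n ∧ c = s(f a, f b) := by
    revert hc
    induction c using Sym2.ind with
    | _ u v =>
      intro hc
      obtain ⟨i, hi1, hi2, rfl⟩ := hsurj 0 u
      obtain ⟨j, hj1, hj2, rfl⟩ := hsurj 0 v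
      have hij : i ≠ j := by
        rintro rfl
        have : G.Adj (f i) (f i) := hc.1
        exact this.ne rfl
      rcases lt_or_gt_of_ne hij with h1 | h1
      · exact ⟨i, j, h1, by omega, rfl⟩
      · exact ⟨j, i, h1, by omega, Sym2.eq_swap⟩
  have hn0 : 0 < n := by omega
  rw [hcab] at hc
  have h𝒯' : ∀ e1 ∈ C, ∀ e2 ∈ C, c ≠ e1 → c ≠ e2 → e1 ≠ e2 → (∃ ℓ, CycSet G f {c, e1, e2} ℓ) →
      insert c {e1, e2} ∈ 𝒯 := by
    intro e1 h1 e2 h2 h3 h4 h5 h6
    rw [h𝒯, mem_filter, mem_powersetCard]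
    refine ⟨⟨?_, ?_⟩, ?_⟩
    · intro e he
      simp only [mem_insert, mem_singleton] at he
      rcases he with rfl | rfl | rfl
      · exact hcC
      · exact h1
      · exact h2
    · rw [card_insert_of_notMem, card_pair h5]
      simp [h3, h4]
    · simpa using h6
  set A := C.filter (fun e => ∃ s, Pos n f a b e s) with hA
  set X := C.filter (fun e => InX n f a b e) with hX
  refine ⟨A.card, X.card, (𝒯.filter (fun T => c ∈ T)).card, ?_, ?_, hτ, ?_⟩
  · refine le_trans (card_le_card ?_) (card_union_le A X)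
    intro e he
    rw [mem_union, hA, hX, mem_filter, mem_filter]
    rcases classify h hsurj hab ((hC e).mp he) with ⟨s, hs⟩ | ⟨s, hs⟩ | hs
    · exact Or.inl ⟨he, s, Or.inl hs⟩
    · exact Or.inl ⟨he, n - s, Or.inr ⟨s, hs, rfl⟩⟩
    · exact Or.inr ⟨he, hs⟩
  · have h1 := pairs_card h𝒯' X.offDiag (by
      intro p hp
      rw [mem_offDiag, hX, mem_filter, mem_filter] at hp
      have h2 := pairX h hc hb ((hC _).mp hp.1.1) ((hC _).mp hp.2.1.1) hp.2.2 hp.1.2 hp.2.1.2
      rw [← hcab] at h2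
      exact ⟨hp.1.1, hp.2.1.1, hp.2.2, h2⟩)
    rw [offDiag_card] at h1
    calc X.card * (X.card - 1) = X.card * X.card - X.card := by rw [Nat.mul_sub]; simp
      _ ≤ _ := h1
  · intro u hu
    let σ : Sym2 V → ℤ := fun e => if h : ∃ s, Pos n f a b e s then Classical.choose h else 0
    have hσ : ∀ e ∈ A, Pos n f a b e (σ e) := by
      intro e he
      rw [hA, mem_filter] at he
      simp only [σ, dif_pos he.2]
      exact Classical.choose_spec he.2
    have hAC : ∀ e ∈ A, e ∈ C := fun e he => (mem_filter.mp he).1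
    have hAC' : ∀ e ∈ A, ¬ HamEdge f e := fun e he => ((hC e).mp (hAC e he)).2
    apply window A σ (Fintype.card V) u _ ?_ (fun e1 e2 => CycSet G f {e1, e2} (|σ e1 - σ e2| + 2))
      ?_ ?_ ?_ hu
    · intro e he
      have := (hσ e he).range hn0 hab hb
      omega
    · intro e1 h1 e2 h2 e3 h3 e4 h4 _ _ h7 h8 h9
      rw [← h9] at h8
      have key := cycSet_inj hD (f := f) (by
        intro e he
        rcases he with rfl | he
        · exact hAC' _ h1
        · rw [Set.mem_singleton_iff] at he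
          rw [he]; exact hAC' _ h2) (by
        intro e he
        rcases he with rfl | he
        · exact hAC' _ h3
        · rw [Set.mem_singleton_iff] at he
          rw [he]; exact hAC' _ h4) h7 h8
      rwa [Set.pair_eq_pair_iff] at key
    · intro e1 _ e2 _ _ h4
      have := cycSet_le h4
      omega
    · apply pairs_card h𝒯'
      intro p hp
      rw [mem_filter, mem_offDiag] at hp
      have h2 := pairA h hab hb hc ((hC _).mp (hAC _ hp.1.1)) ((hC _).mp (hAC _ hp.1.2.1)) hp.1.2.2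
        (hσ _ hp.1.1) (hσ _ hp.1.2.1)
      rcases h2 with h2 | h2
      · exact absurd h2 hp.2
      · rw [← hcab] at h2
        exact ⟨hAC _ hp.1.1, hAC _ hp.1.2.1, hp.1.2.2, h2⟩

end Pool.Agent.H828.HC
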