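import Pool.Agent.H828.HC.Paths

set_option autoImplicit false

namespace Pool.Agent.H828.HC

open SimpleGraph

variable {V : Type*} {G : SimpleGraph V} {n : ℤ} {f : ℤ → V}

lemma jump {w : V} {x y : ℤ} (q : G.Walk (f y) w) (hq : q.IsPath) (ha : G.Adj (f x) (f y))
    (hx : f x ∉ q.support) {T : Set (Sym2 V)}
    (hT : ∀ e, ¬ HamEdge f e → (e ∈ q.edges ↔ e ∈ T)) :
    ∃ r : G.Walk (f x) w, r.IsPath ∧ (r.length : ℤ) = 1 + q.length ∧
      (∀ v, v ∈ r.support ↔ v ∈ q.support ∨ v = f x) ∧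
      (∀ e, ¬ HamEdge f e → (e ∈ r.edges ↔ e ∈ insert s(f x, f y) T)) := by
  refine ⟨Walk.cons ha q, (Walk.cons_isPath_iff _ _).mpr ⟨hq, hx⟩, ?_, ?_, ?_⟩
  · rw [Walk.length_cons]; push_cast; ring
  · intro v
    rw [Walk.support_cons, List.mem_cons]
    tauto
  · intro e he
    rw [Walk.edges_cons, List.mem_cons, hT e he, Set.mem_insert_iff]

lemma start (y : ℤ) : ∃ q : G.Walk (f y) (f y), q.IsPath ∧ (q.length : ℤ) = 0 ∧
    (∀ v, v ∈ q.support ↔ v = f y) ∧
    (∀ e, ¬ HamEdge f e → (e ∈ q.edges ↔ e ∈ (∅ : Set (Sym2 V)))) :=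
  ⟨Walk.nil, Walk.IsPath.nil, by simp, by simp, by simp⟩

/-- two nested chords -/
lemma cyc2 (h : Ham G n f) {x1 x2 y2 y1 : ℤ} (h1 : x1 ≤ x2) (h2 : x2 < y2) (h3 : y2 ≤ y1)
    (h4 : y1 < x1 + n) (a1 : G.Adj (f x1) (f y1)) (a2 : G.Adj (f x2) (f y2))
    (c1 : ¬ HamEdge f s(f x1, f y1))
    (hne : s(f x1, f y1) ≠ s(f x2, f y2)) :
    CycSet G f {s(f x1, f y1), s(f x2, f y2)} ((x2 - x1) + (y1 - y2) + 2) := by
  obtain ⟨q0, p0, l0, s0, e0⟩ := start (G := G) (f := f) y1
  obtain ⟨q1, p1, l1, s1, e1⟩ := h.up h3 (by omega) q0 p0 (by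
    intro t ht1 ht2 ht
    rw [s0] at ht
    exact h.inj t y1 (by omega) (by omega) ht)
  obtain ⟨q2, p2, l2, s2, e2⟩ := jump q1 p1 a2 (by
    rw [s1, s0]
    rintro (h5 | ⟨t, h5, h6, h7⟩)
    · exact h.inj x2 y1 (by omega) (by omega) h5
    · exact h.inj x2 t (by omega) (by omega) h7) (fun e he => (e1 e he).trans (e0 e he))
  obtain ⟨q3, p3, l3, s3, e3⟩ := h.up h1 (by omega) q2 p2 (by
    intro t ht1 ht2
    rw [s2, s1, s0]
    rintro ((h5 | ⟨t', h5, h6, h7⟩) | h5)
    · exact h.inj t y1 (by omega) (by omega) h5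
    · exact h.inj t t' (by omega) (by omega) h7
    · exact h.inj t x2 (by omega) (by omega) h5)
  have key := close_path q3 p3 a1.symm (fun e he => (e3 e he).trans (e2 e he))
    (by rw [Sym2.eq_swap (a := f y1) (b := f x1)]; exact c1) (by
      rw [Sym2.eq_swap (a := f y1) (b := f x1)]
      simp only [Set.mem_insert_iff, Set.mem_empty_iff_false, or_false]
      exact hne)
  rw [Sym2.eq_swap (a := f y1) (b := f x1)] at key
  have e4 : ((x2 - x1) + (y1 - y2) + 2 : ℤ) = q3.length + 1 := by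
    rw [l3, l2, l1, l0]; ring
  rw [e4]
  simpa using key

/-- three chords, two of them disjoint under the third -/
lemma cyc3a (h : Ham G n f) {a x1 y1 x2 y2 b : ℤ} (h1 : a ≤ x1) (h2 : x1 < y1) (h3 : y1 ≤ x2)
    (h4 : x2 < y2) (h5 : y2 ≤ b) (h6 : b < a + n)
    (a0 : G.Adj (f a) (f b)) (a1 : G.Adj (f x1) (f y1)) (a2 : G.Adj (f x2) (f y2))
    (c0 : ¬ HamEdge f s(f a, f b))
    (n1 : s(f a, f b) ≠ s(f x1, f y1)) (n2 : s(f a, f b) ≠ s(f x2, f y2)) :
    ∃ ℓ, CycSet G f {s(f a, f b), s(f x1, f y1), s(f x2, f y2)} ℓ := by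
  obtain ⟨q0, p0, l0, s0, e0⟩ := start (G := G) (f := f) b
  obtain ⟨q1, p1, l1, s1, e1⟩ := h.up h5 (by omega) q0 p0 (by
    intro t ht1 ht2 ht
    rw [s0] at ht
    exact h.inj t b (by omega) (by omega) ht)
  obtain ⟨q2, p2, l2, s2, e2⟩ := jump q1 p1 a2 (by
    rw [s1, s0]
    rintro (h5 | ⟨t, h5, h6, h7⟩)
    · exact h.inj x2 b (by omega) (by omega) h5
    · exact h.inj x2 t (by omega) (by omega) h7) (fun e he => (e1 e he).trans (e0 e he))
  obtain ⟨q3, p3, l3, s3, e3⟩ := h.up h3 (by omega) q2 p2 (by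
    intro t ht1 ht2
    rw [s2, s1, s0]
    rintro ((h5 | ⟨t', h5, h6, h7⟩) | h5)
    · exact h.inj t b (by omega) (by omega) h5
    · exact h.inj t t' (by omega) (by omega) h7
    · exact h.inj t x2 (by omega) (by omega) h5)
  obtain ⟨q4, p4, l4, s4, e4⟩ := jump q3 p3 a1 (by
    rw [s3, s2, s1, s0]
    rintro (((h5 | ⟨t, h5, h6, h7⟩) | h5) | ⟨t, h5, h6, h7⟩)
    · exact h.inj x1 b (by omega) (by omega) h5
    · exact h.inj x1 t (by omega) (by omega) h7
    · exact h.inj x1 x2 (by omega) (by omega) h5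
    · exact h.inj x1 t (by omega) (by omega) h7) (fun e he => (e3 e he).trans (e2 e he))
  obtain ⟨q5, p5, l5, s5, e5⟩ := h.up h1 (by omega) q4 p4 (by
    intro t ht1 ht2
    rw [s4, s3, s2, s1, s0]
    rintro ((((h5 | ⟨t', h5, h6, h7⟩) | h5) | ⟨t', h5, h6, h7⟩) | h5)
    · exact h.inj t b (by omega) (by omega) h5
    · exact h.inj t t' (by omega) (by omega) h7
    · exact h.inj t x2 (by omega) (by omega) h5
    · exact h.inj t t' (by omega) (by omega) h7
    · exact h.inj t x1 (by omega) (by omega) h5)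
  have key := close_path q5 p5 a0.symm (fun e he => (e5 e he).trans (e4 e he))
    (by rw [Sym2.eq_swap (a := f b) (b := f a)]; exact c0) (by
      rw [Sym2.eq_swap (a := f b) (b := f a)]
      simp only [Set.mem_insert_iff, Set.mem_empty_iff_false, or_false]
      rintro (h | h)
      · exact n1 h
      · exact n2 h)
  rw [Sym2.eq_swap (a := f b) (b := f a)] at key
  exact ⟨_, by simpa using key⟩

/-- three chords, two of them crossing under the third -/
lemma cyc3b (h : Ham G n f) {a x1 x2 y1 y2 b : ℤ} (h1 : a ≤ x1) (h2 : x1 < x2) (h3 : x2 < y1)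
    (h4 : y1 < y2) (h5 : y2 ≤ b) (h6 : b < a + n)
    (a0 : G.Adj (f a) (f b)) (a1 : G.Adj (f x1) (f y1)) (a2 : G.Adj (f x2) (f y2))
    (c0 : ¬ HamEdge f s(f a, f b))
    (n1 : s(f a, f b) ≠ s(f x1, f y1)) (n2 : s(f a, f b) ≠ s(f x2, f y2)) :
    ∃ ℓ, CycSet G f {s(f a, f b), s(f x1, f y1), s(f x2, f y2)} ℓ := by
  obtain ⟨q0, p0, l0, s0, e0⟩ := start (G := G) (f := f) b
  obtain ⟨q1, p1, l1, s1, e1⟩ := h.up h5 (by omega) q0 p0 (by
    intro t ht1 ht2 ht
    rw [s0] at ht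
    exact h.inj t b (by omega) (by omega) ht)
  obtain ⟨q2, p2, l2, s2, e2⟩ := jump q1 p1 a2 (by
    rw [s1, s0]
    rintro (h5 | ⟨t, h5, h6, h7⟩)
    · exact h.inj x2 b (by omega) (by omega) h5
    · exact h.inj x2 t (by omega) (by omega) h7) (fun e he => (e1 e he).trans (e0 e he))
  obtain ⟨q3, p3, l3, s3, e3⟩ := h.down (i := y1) (j := x2) (by omega) (by omega) q2 p2 (by
    intro t ht1 ht2
    rw [s2, s1, s0]
    rintro ((h5 | ⟨t', h5, h6, h7⟩) | h5)
    · exact h.inj t b (by omega) (by omega) h5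
    · exact h.inj t t' (by omega) (by omega) h7
    · exact h.inj x2 t (by omega) (by omega) h5.symm)
  obtain ⟨q4, p4, l4, s4, e4⟩ := jump q3 p3 a1 (by
    rw [s3, s2, s1, s0]
    rintro (((h5 | ⟨t, h5, h6, h7⟩) | h5) | ⟨t, h5, h6, h7⟩)
    · exact h.inj x1 b (by omega) (by omega) h5
    · exact h.inj x1 t (by omega) (by omega) h7
    · exact h.inj x1 x2 (by omega) (by omega) h5
    · exact h.inj x1 t (by omega) (by omega) h7) (fun e he => (e3 e he).trans (e2 e he))
  obtain ⟨q5, p5, l5, s5, e5⟩ := h.up h1 (by omega) q4 p4 (by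
    intro t ht1 ht2
    rw [s4, s3, s2, s1, s0]
    rintro ((((h5 | ⟨t', h5, h6, h7⟩) | h5) | ⟨t', h5, h6, h7⟩) | h5)
    · exact h.inj t b (by omega) (by omega) h5
    · exact h.inj t t' (by omega) (by omega) h7
    · exact h.inj t x2 (by omega) (by omega) h5
    · exact h.inj t t' (by omega) (by omega) h7
    · exact h.inj t x1 (by omega) (by omega) h5)
  have key := close_path q5 p5 a0.symm (fun e he => (e5 e he).trans (e4 e he))
    (by rw [Sym2.eq_swap (a := f b) (b := f a)]; exact c0) (by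
      rw [Sym2.eq_swap (a := f b) (b := f a)]
      simp only [Set.mem_insert_iff, Set.mem_empty_iff_false, or_false]
      rintro (h | h)
      · exact n1 h
      · exact n2 h)
  rw [Sym2.eq_swap (a := f b) (b := f a)] at key
  exact ⟨_, by simpa using key⟩

/-- a chord `a b` and two chords crossing it with different end points between `a` and `b` -/
lemma cycX1 (h : Ham G n f) {a x1 x2 b y1 y2 : ℤ} (h1 : a < x1) (h2 : x1 < x2) (h3 : x2 < b)
    (h4 : b < y1) (h5 : b < y2) (h6 : y1 < a + n) (h7 : y2 < a + n)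
    (a0 : G.Adj (f a) (f b)) (a1 : G.Adj (f x1) (f y1)) (a2 : G.Adj (f x2) (f y2))
    (c0 : ¬ HamEdge f s(f a, f b))
    (n1 : s(f a, f b) ≠ s(f x1, f y1)) (n2 : s(f a, f b) ≠ s(f x2, f y2)) :
    ∃ ℓ, CycSet G f {s(f a, f b), s(f x1, f y1), s(f x2, f y2)} ℓ := by
  obtain ⟨q0, p0, l0, s0, e0⟩ := start (G := G) (f := f) b
  obtain ⟨q1, p1, l1, s1, e1⟩ := h.up h3.le (by omega) q0 p0 (by
    intro t ht1 ht2 ht
    rw [s0] at ht
    exact h.inj t b (by omega) (by omega) ht)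
  obtain ⟨q2, p2, l2, s2, e2⟩ := jump (x := y2) (y := x2) q1 p1 a2.symm (by
    rw [s1, s0]
    rintro (h5 | ⟨t, h5, h6, h7⟩)
    · exact h.inj b y2 (by omega) (by omega) h5.symm
    · exact h.inj t y2 (by omega) (by omega) h7.symm) (fun e he => (e1 e he).trans (e0 e he))
  -- path from `y1` to `y2`
  obtain ⟨q3, p3, s3, e3⟩ : ∃ r : G.Walk (f y1) (f b), r.IsPath ∧
      (∀ v, v ∈ r.support → v ∈ q2.support ∨ ∃ t, b < t ∧ t < a + n ∧ v = f t) ∧
      (∀ e, ¬ HamEdge f e → (e ∈ r.edges ↔ e ∈ q2.edges)) := by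
    rcases le_total y1 y2 with h8 | h8
    · obtain ⟨q3, p3, l3, s3, e3⟩ := h.up h8 (by omega) q2 p2 (by
        intro t ht1 ht2
        rw [s2, s1, s0]
        rintro ((h5 | ⟨t', h5, h6, h7⟩) | h5)
        · exact h.inj b t (by omega) (by omega) h5.symm
        · exact h.inj t' t (by omega) (by omega) h7.symm
        · exact h.inj t y2 (by omega) (by omega) h5)
      refine ⟨q3, p3, ?_, e3⟩
      intro v hv
      rw [s3] at hv
      rcases hv with h9 | ⟨t, h9, h10, h11⟩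
      · exact Or.inl h9
      · exact Or.inr ⟨t, by omega, by omega, h11⟩
    · obtain ⟨q3, p3, l3, s3, e3⟩ := h.down (i := y1) (j := y2) h8 (by omega) q2 p2 (by
        intro t ht1 ht2
        rw [s2, s1, s0]
        rintro ((h5 | ⟨t', h5, h6, h7⟩) | h5)
        · exact h.inj b t (by omega) (by omega) h5.symm
        · exact h.inj t' t (by omega) (by omega) h7.symm
        · exact h.inj y2 t (by omega) (by omega) h5.symm)
      refine ⟨q3, p3, ?_, e3⟩
      intro v hv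
      rw [s3] at hv
      rcases hv with h9 | ⟨t, h9, h10, h11⟩
      · exact Or.inl h9
      · exact Or.inr ⟨t, by omega, by omega, h11⟩
  have s3' : ∀ v, v ∈ q3.support → (∃ t, x2 ≤ t ∧ t < a + n ∧ v = f t) := by
    intro v hv
    rcases s3 v hv with h8 | ⟨t, h8, h9, h10⟩
    · rw [s2, s1, s0] at h8
      rcases h8 with (h8 | ⟨t, h8, h9, h10⟩) | h8
      · exact ⟨b, by omega, by omega, h8⟩
      · exact ⟨t, by omega, by omega, h10⟩
      · exact ⟨y2, by omega, by omega, h8⟩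
    · exact ⟨t, by omega, by omega, h10⟩
  obtain ⟨q4, p4, l4, s4, e4⟩ := jump q3 p3 a1 (by
    intro hv
    obtain ⟨t, h8, h9, h10⟩ := s3' _ hv
    exact h.inj x1 t (by omega) (by omega) h10) (fun e he => (e3 e he).trans (e2 e he))
  obtain ⟨q5, p5, l5, s5, e5⟩ := h.up h1.le (by omega) q4 p4 (by
    intro t ht1 ht2
    rw [s4]
    rintro (h5 | h5)
    · obtain ⟨t', h8, h9, h10⟩ := s3' _ h5
      exact h.inj t t' (by omega) (by omega) h10
    · exact h.inj t x1 (by omega) (by omega) h5)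
  have key := close_path q5 p5 a0.symm (fun e he => (e5 e he).trans (e4 e he))
    (by rw [Sym2.eq_swap (a := f b) (b := f a)]; exact c0) (by
      rw [Sym2.eq_swap (a := f b) (b := f a), Sym2.eq_swap (a := f y2) (b := f x2)]
      simp only [Set.mem_insert_iff, Set.mem_empty_iff_false, or_false]
      rintro (h | h)
      · exact n1 h
      · exact n2 h)
  rw [Sym2.eq_swap (a := f b) (b := f a), Sym2.eq_swap (a := f y2) (b := f x2)] at key
  exact ⟨_, by simpa using key⟩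

/-- a chord `a b` and two chords crossing it with the same end point between `a` and `b` -/
lemma cycX2 (h : Ham G n f) {a x b y1 y2 : ℤ} (h1 : a < x) (h3 : x < b)
    (h4 : b < y2) (h5 : y2 < y1) (h6 : y1 < a + n)
    (a0 : G.Adj (f a) (f b)) (a1 : G.Adj (f x) (f y1)) (a2 : G.Adj (f x) (f y2))
    (c1 : ¬ HamEdge f s(f x, f y1))
    (n0 : s(f x, f y1) ≠ s(f a, f b)) (n2 : s(f x, f y1) ≠ s(f x, f y2)) :
    ∃ ℓ, CycSet G f {s(f a, f b), s(f x, f y1), s(f x, f y2)} ℓ := by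
  obtain ⟨q0, p0, l0, s0, e0⟩ := start (G := G) (f := f) x
  obtain ⟨q1, p1, l1, s1, e1⟩ := jump (x := y2) (y := x) q0 p0 a2.symm (by
    rw [s0]
    intro h5
    exact h.inj x y2 (by omega) (by omega) h5.symm) e0
  obtain ⟨q2, p2, l2, s2, e2⟩ := h.up h4.le (by omega) q1 p1 (by
    intro t ht1 ht2
    rw [s1, s0]
    rintro (h5 | h5)
    · exact h.inj x t (by omega) (by omega) h5.symm
    · exact h.inj t y2 (by omega) (by omega) h5)
  have s2' : ∀ v, v ∈ q2.support → (∃ t, x ≤ t ∧ t ≤ y2 ∧ v = f t) := by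
    intro v hv
    rw [s2, s1, s0] at hv
    rcases hv with (h8 | h8) | ⟨t, h8, h9, h10⟩
    · exact ⟨x, by omega, by omega, h8⟩
    · exact ⟨y2, by omega, by omega, h8⟩
    · exact ⟨t, by omega, by omega, h10⟩
  have hper : f (a + n) = f a := h.per a
  obtain ⟨q3, p3, l3, s3, e3⟩ := jump (x := a + n) (y := b) q2 p2 (by rw [hper]; exact a0) (by
    intro hv
    obtain ⟨t, h8, h9, h10⟩ := s2' _ hv
    exact h.inj t (a + n) (by omega) (by omega) h10.symm) (fun e he => (e2 e he).trans (e1 e he))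
  obtain ⟨q4, p4, l4, s4, e4⟩ := h.up (i := y1) h6.le (by omega) q3 p3 (by
    intro t ht1 ht2
    rw [s3]
    rintro (h5 | h5)
    · obtain ⟨t', h8, h9, h10⟩ := s2' _ h5
      exact h.inj t' t (by omega) (by omega) h10.symm
    · exact h.inj t (a + n) (by omega) (by omega) h5)
  have key := close_path q4 p4 a1 (fun e he => (e4 e he).trans (e3 e he))
    c1 (by
      rw [Sym2.eq_swap (a := f y2) (b := f x), hper]
      simp only [Set.mem_insert_iff, Set.mem_empty_iff_false, or_false]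
      rintro (h | h)
      · exact n0 h
      · exact n2 h)
  rw [Sym2.eq_swap (a := f y2) (b := f x), hper] at key
  rw [Set.insert_comm]
  exact ⟨_, by simpa using key⟩

end Pool.Agent.H828.HC
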