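import Pool.Agent.H828.HC.Bound

set_option autoImplicit false

namespace Pool.Agent.H828.HC

open SimpleGraph

/-- The fan: the path `1, 2, 3, …` and the vertex `0`, joined to the elements of `Y`. -/
def Fan (Y : Finset ℕ) : SimpleGraph ℕ where
  Adj i j := (i = 0 ∧ 0 < j ∧ j ∈ Y) ∨ (j = 0 ∧ 0 < i ∧ i ∈ Y) ∨
    (0 < i ∧ 0 < j ∧ (i + 1 = j ∨ j + 1 = i))
  symm := ⟨by
    rintro i j (h | h | ⟨h1, h2, h3⟩)
    · exact Or.inr (Or.inl h)
    · exact Or.inl h
    · exact Or.inr (Or.inr ⟨h2, h1, h3.symm⟩)⟩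
  loopless := ⟨by
    rintro i (h | h | h) <;> omega⟩

variable {Y : Finset ℕ}

lemma path_up {a b : ℕ} (q : (Fan Y).Walk a b) : q.IsPath → 0 ∉ q.support →
    a - 1 ∉ q.support → a ≤ b ∧ q.length = b - a ∧
      ∀ e, e ∈ q.edges ↔ ∃ t, a ≤ t ∧ t < b ∧ e = s(t, t + 1) := by
  induction q with
  | nil =>
    intro _ _ _
    refine ⟨le_rfl, by simp, fun e => ?_⟩
    constructor
    · intro h; simp at h
    · rintro ⟨t, h1, h2, _⟩; omega
  | @cons a c b h q ih =>
    intro hq h0 h1
    rw [Walk.cons_isPath_iff] at hq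
    rw [Walk.support_cons, List.mem_cons, not_or] at h0 h1
    have hc : c ≠ 0 := fun hc => h0.2 (hc ▸ q.start_mem_support)
    have hc1 : c ≠ a - 1 := fun hc => h1.2 (hc ▸ q.start_mem_support)
    have hca : c = a + 1 := by
      rcases h with h | h | h <;> omega
    subst hca
    obtain ⟨h2, h3, h4⟩ := ih hq.1 h0.2 (by simpa using hq.2)
    refine ⟨by omega, by rw [Walk.length_cons, h3]; omega, fun e => ?_⟩
    rw [Walk.edges_cons, List.mem_cons, h4]
    constructor
    · rintro (h5 | ⟨t, h5, h6, h7⟩)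
      · exact ⟨a, le_rfl, by omega, h5⟩
      · exact ⟨t, by omega, h6, h7⟩
    · rintro ⟨t, h5, h6, h7⟩
      rcases eq_or_lt_of_le h5 with h8 | h8
      · left; rw [h7, h8]
      · exact Or.inr ⟨t, by omega, h6, h7⟩

lemma path_down {a b : ℕ} (q : (Fan Y).Walk a b) : q.IsPath → 0 ∉ q.support →
    a + 1 ∉ q.support → b ≤ a ∧ q.length = a - b ∧
      ∀ e, e ∈ q.edges ↔ ∃ t, b ≤ t ∧ t < a ∧ e = s(t, t + 1) := by
  induction q with
  | nil =>
    intro _ _ _
    refine ⟨le_rfl, by simp, fun e => ?_⟩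
    constructor
    · intro h; simp at h
    · rintro ⟨t, h1, h2, _⟩; omega
  | @cons a c b h q ih =>
    intro hq h0 h1
    rw [Walk.cons_isPath_iff] at hq
    rw [Walk.support_cons, List.mem_cons, not_or] at h0 h1
    have hc : c ≠ 0 := fun hc => h0.2 (hc ▸ q.start_mem_support)
    have hc1 : c ≠ a + 1 := fun hc => h1.2 (hc ▸ q.start_mem_support)
    have hca : c + 1 = a := by
      rcases h with h | h | h <;> omega
    subst hca
    obtain ⟨h2, h3, h4⟩ := ih hq.1 h0.2 hq.2
    refine ⟨by omega, by rw [Walk.length_cons, h3]; omega, fun e => ?_⟩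
    rw [Walk.edges_cons, List.mem_cons, h4]
    constructor
    · rintro (h5 | ⟨t, h5, h6, h7⟩)
      · exact ⟨c, by omega, by omega, by rw [h5, Sym2.eq_swap]⟩
      · exact ⟨t, by omega, by omega, h7⟩
    · rintro ⟨t, h5, h6, h7⟩
      rcases eq_or_ne t c with h8 | h8
      · left; rw [h7, h8, Sym2.eq_swap]
      · exact Or.inr ⟨t, by omega, by omega, h7⟩

lemma path_line {a b : ℕ} (q : (Fan Y).Walk a b) (hq : q.IsPath) (h0 : 0 ∉ q.support)
    (hab : a ≠ b) :
    (a < b ∧ q.length = b - a ∧ ∀ e, e ∈ q.edges ↔ ∃ t, a ≤ t ∧ t < b ∧ e = s(t, t + 1)) ∨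
    (b < a ∧ q.length = a - b ∧ ∀ e, e ∈ q.edges ↔ ∃ t, b ≤ t ∧ t < a ∧ e = s(t, t + 1)) := by
  cases q with
  | nil => exact absurd rfl hab
  | cons h q =>
    rename_i c
    have h00 := h0
    have hqq := hq
    rw [Walk.cons_isPath_iff] at hq
    rw [Walk.support_cons, List.mem_cons, not_or] at h0
    have hc : c ≠ 0 := fun hc => h0.2 (hc ▸ q.start_mem_support)
    have hca : c = a + 1 ∨ c + 1 = a := by
      rcases h with h | h | h <;> omega
    rcases hca with hca | hca
    · left
      subst hca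
      obtain ⟨h2, h3, h4⟩ := path_up q hq.1 h0.2 (by simpa using hq.2)
      refine ⟨by omega, by rw [Walk.length_cons, h3]; omega, fun e => ?_⟩
      rw [Walk.edges_cons, List.mem_cons, h4]
      constructor
      · rintro (h5 | ⟨t, h5, h6, h7⟩)
        · exact ⟨a, le_rfl, by omega, h5⟩
        · exact ⟨t, by omega, h6, h7⟩
      · rintro ⟨t, h5, h6, h7⟩
        rcases eq_or_lt_of_le h5 with h8 | h8
        · left; rw [h7, h8]
        · exact Or.inr ⟨t, by omega, h6, h7⟩
    · right
      subst hca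
      obtain ⟨h2, h3, h4⟩ := path_down q hq.1 h0.2 hq.2
      refine ⟨by omega, by rw [Walk.length_cons, h3]; omega, fun e => ?_⟩
      rw [Walk.edges_cons, List.mem_cons, h4]
      constructor
      · rintro (h5 | ⟨t, h5, h6, h7⟩)
        · exact ⟨c, by omega, by omega, by rw [h5, Sym2.eq_swap]⟩
        · exact ⟨t, by omega, by omega, h7⟩
      · rintro ⟨t, h5, h6, h7⟩
        rcases eq_or_ne t c with h8 | h8
        · left; rw [h7, h8, Sym2.eq_swap]
        · exact Or.inr ⟨t, by omega, by omega, h7⟩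

/-- the cycles of the fan -/
lemma cycle_form {u : ℕ} (p : (Fan Y).Walk u u) (hp : p.IsCycle) :
    ∃ x y, x ∈ Y ∧ y ∈ Y ∧ x < y ∧ p.length = y - x + 2 ∧
      ∀ e, e ∈ p.edges ↔ e = s(0, x) ∨ e = s(0, y) ∨ ∃ t, x ≤ t ∧ t < y ∧ e = s(t, t + 1) := by
  -- the vertex `0` is on the cycle
  have h0 : 0 ∈ p.support := by
    by_contra h0
    cases p with
    | nil => exact hp.ne_nil rfl
    | cons h q =>
      rename_i v
      rw [Walk.cons_isCycle_iff] at hp
      rw [Walk.support_cons, List.mem_cons, not_or] at h0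
      have hv : v ≠ 0 := fun hc => h0.2 (hc ▸ q.start_mem_support)
      rcases path_line q hp.1 h0.2 h.ne.symm with ⟨h1, h2, h3⟩ | ⟨h1, h2, h3⟩
      · apply hp.2
        rw [h3]
        refine ⟨v, le_rfl, h1, ?_⟩
        have : u = v + 1 := by rcases h with h | h | h <;> omega
        rw [this, Sym2.eq_swap]
      · apply hp.2
        rw [h3]
        refine ⟨u, le_rfl, h1, ?_⟩
        have : v = u + 1 := by rcases h with h | h | h <;> omega
        rw [this]
  have hp' := hp.rotate h0
  have hlen : (p.rotate 0 h0).length = p.length := by simp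
  have hedg : ∀ e, e ∈ (p.rotate 0 h0).edges ↔ e ∈ p.edges := fun e =>
    (p.rotate_edges 0 h0).mem_iff
  revert hp' hlen hedg
  generalize p.rotate 0 h0 = p'
  intro hp' hlen hedg
  simp only [← hedg, ← hlen]
  clear hlen hedg
  cases p' with
  | nil => exact absurd rfl hp'.ne_nil
  | cons h q =>
    rename_i a
    rw [Walk.cons_isCycle_iff] at hp'
    have ha : 0 < a ∧ a ∈ Y := by rcases h with h | h | h <;> [exact ⟨h.2.1, h.2.2⟩; omega; omega]
    have hrev : ∀ e, e ∈ q.edges ↔ e ∈ q.reverse.edges := by intro e; simp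
    have hlr : q.length = q.reverse.length := by simp
    have hqr : q.reverse.IsPath := hp'.1.reverse
    have hns : s(0, a) ∉ q.reverse.edges := by rw [← hrev]; exact hp'.2
    simp only [Walk.edges_cons, List.mem_cons, Walk.length_cons, hlr, hrev]
    revert hqr hns
    generalize q.reverse = q'
    intro hqr hns
    cases q' with
    | nil => omega
    | cons h2 r =>
      rename_i b
      rw [Walk.cons_isPath_iff] at hqr
      have hb : 0 < b ∧ b ∈ Y := by
        rcases h2 with h | h | h <;> [exact ⟨h.2.1, h.2.2⟩; omega; omega]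
      simp only [Walk.edges_cons, List.mem_cons, Walk.length_cons]
      rw [Walk.edges_cons, List.mem_cons, not_or] at hns
      have hab : b ≠ a := by
        rintro rfl
        exact hns.1 rfl
      rcases path_line r hqr.1 hqr.2 hab with ⟨h3, h4, h5⟩ | ⟨h3, h4, h5⟩
      · refine ⟨b, a, hb.2, ha.2, h3, by rw [h4], fun e => ?_⟩
        rw [h5]; tauto
      · refine ⟨a, b, ha.2, hb.2, h3, by rw [h4], fun e => ?_⟩
        rw [h5]

/-- If the differences of the elements of `Y` are different then the cycles of the fan have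
different lengths. -/
lemma fan_distinct (hY : ∀ a ∈ Y, ∀ b ∈ Y, ∀ c ∈ Y, ∀ d ∈ Y, a < b → c < d → b - a = d - c →
    a = c ∧ b = d) : Distinct (Fan Y) := by
  intro u v p q hp hq hl
  obtain ⟨a, b, ha, hb, hab, h1, h2⟩ := cycle_form p hp
  obtain ⟨c, d, hc, hd, hcd, h3, h4⟩ := cycle_form q hq
  obtain ⟨rfl, rfl⟩ := hY a ha b hb c hc d hd hab hcd (by omega)
  ext e
  show e ∈ p.edges ↔ e ∈ q.edges
  rw [h2, h4]

lemma distinct_comap {V W : Type*} {G : SimpleGraph W} (g : V ↪ W) (h : Distinct G) :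
    Distinct (G.comap g) := by
  intro u v p q hp hq hl
  let φ : G.comap g →g G := ⟨g, fun h => h⟩
  have hφ : Function.Injective φ := g.injective
  have h1 := h _ _ (p.map φ) (q.map φ) (hp.map hφ) (hq.map hφ) (by simpa using hl)
  ext e
  have h2 : Function.Injective (Sym2.map φ) := Sym2.map.injective hφ
  have h3 := Set.ext_iff.mp h1 (Sym2.map φ e)
  simp only [Set.mem_ofPred_eq, Walk.edges_map] at h3
  rw [List.mem_map_of_injective h2, List.mem_map_of_injective h2] at h3
  exact h3

end Pool.Agent.H828.HC
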