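import Pool.Agent.H828.HC.Fan

set_option autoImplicit false

namespace Pool.Agent.H828.HC

open SimpleGraph

lemma path_edge {V : Type*} {G : SimpleGraph V} {u v : V} (r : G.Walk u v) (hr : r.IsPath)
    (hl : 2 ≤ r.length) : s(v, u) ∉ r.edges := by
  intro he
  cases r with
  | nil => simp at hl
  | cons hc r' =>
    rename_i c
    rw [Walk.cons_isPath_iff] at hr
    rw [Walk.edges_cons, List.mem_cons] at he
    rcases he with he | he
    · rw [Sym2.eq_iff] at he
      rcases he with ⟨h1, h2⟩ | ⟨h1, h2⟩
      · subst h1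
        exact hr.2 r'.end_mem_support
      · subst h1
        have h3 : r'.Nil := Walk.isPath_iff_nil.mp hr.1
        have h4 : r'.length = 0 := Walk.length_eq_zero_iff.mpr h3
        rw [Walk.length_cons, h4] at hl
        omega
    · exact hr.2 (Walk.snd_mem_support_of_mem_edges _ he)

lemma Ham.isHamiltonian {V : Type*} {G : SimpleGraph V} [Fintype V] [DecidableEq V] {f : ℤ → V}
    (h : Ham G (Fintype.card V) f) (hN : 3 ≤ Fintype.card V) : G.IsHamiltonian := by
  intro _
  set N : ℤ := ((Fintype.card V : ℕ) : ℤ) with hNdef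
  obtain ⟨r, hr, hrl, hrs, _⟩ := h.up (i := 0) (j := N - 1) (w := f (N - 1)) (by omega) (by omega)
    Walk.nil Walk.IsPath.nil (by
      intro t h1 h2 h3
      rw [Walk.support_nil, List.mem_singleton] at h3
      exact h.inj t (N - 1) (by omega) (by omega) h3)
  have hadj : G.Adj (f (N - 1)) (f 0) := by
    have h1 := h.adj (N - 1)
    rw [sub_add_cancel] at h1
    have h2 := h.per 0
    rw [zero_add] at h2
    rwa [h2] at h1
  have hlen : r.length = Fintype.card V - 1 := by
    rw [Walk.length_nil] at hrl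
    push_cast at hrl
    omega
  have hne : s(f (N - 1), f 0) ∉ r.edges := path_edge r hr (by omega)
  refine ⟨f (N - 1), Walk.cons hadj r, ?_⟩
  rw [Walk.isHamiltonianCycle_iff_isCycle_and_support_count_tail_eq_one]
  refine ⟨(Walk.cons_isCycle_iff _ _).mpr ⟨hr, hne⟩, ?_⟩
  rw [Walk.support_cons, List.tail_cons]
  exact Walk.isHamiltonian_iff_isPath_and_length_eq.mpr ⟨hr, hlen⟩

theorem lower_graph (n : ℕ) (hn : 3 ≤ n) (Y : Finset ℕ) (hY1 : ∀ y ∈ Y, 1 ≤ y ∧ y ≤ n - 1)
    (h1 : 1 ∈ Y) (h2 : n - 1 ∈ Y)
    (hY : ∀ a ∈ Y, ∀ b ∈ Y, ∀ c ∈ Y, ∀ d ∈ Y, a < b → c < d → b - a = d - c → a = c ∧ b = d) :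
    ∃ G : SimpleGraph (Fin n), G.IsHamiltonian ∧ Distinct G ∧ n - 2 + Y.card ≤ G.edgeSet.ncard := by
  classical
  let g : Fin n ↪ ℕ := ⟨Fin.val, Fin.val_injective⟩
  refine ⟨(Fan Y).comap g, ?_, distinct_comap g (fan_distinct hY), ?_⟩
  · -- Hamiltonian
    have hn0 : (0 : ℤ) < n := by omega
    let f : ℤ → Fin n := fun i => ⟨(i % (n : ℤ)).toNat, by
      have h3 := Int.emod_nonneg i hn0.ne'
      have h4 := Int.emod_lt_of_pos i hn0
      omega⟩
    have hf : Ham ((Fan Y).comap g) (Fintype.card (Fin n)) f := by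
      rw [Fintype.card_fin]
      refine ⟨?_, ?_, ?_⟩
      · intro i
        show (Fan Y).Adj (i % (n : ℤ)).toNat ((i + 1) % (n : ℤ)).toNat
        have h3 := Int.emod_nonneg i hn0.ne'
        have h4 := Int.emod_lt_of_pos i hn0
        rcases eq_or_ne (i % (n : ℤ) + 1) n with h5 | h5
        · have h6 : (i + 1) % (n : ℤ) = 0 := by
            rw [Int.add_emod, Int.emod_eq_of_lt (a := 1) (by norm_num) (by omega), h5, Int.emod_self]
          rw [h6]
          right; left
          have h7 : (i % (n : ℤ)).toNat = n - 1 := by omega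
          rw [h7]
          exact ⟨rfl, by omega, h2⟩
        · have h6 : (i + 1) % (n : ℤ) = i % (n : ℤ) + 1 := by
            rw [Int.add_emod, Int.emod_eq_of_lt (a := 1) (by norm_num) (by omega)]
            exact Int.emod_eq_of_lt (by omega) (by omega)
          rw [h6]
          rcases eq_or_ne (i % (n : ℤ)) 0 with h7 | h7
          · rw [h7]
            left
            exact ⟨rfl, by norm_num, h1⟩
          · right; right
            omega
      · intro i j hij hj heq
        have h3 := Int.emod_nonneg i hn0.ne'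
        have h4 := Int.emod_lt_of_pos i hn0
        have h3' := Int.emod_nonneg j hn0.ne'
        have h4' := Int.emod_lt_of_pos j hn0
        have h5 : (i % (n : ℤ)).toNat = (j % (n : ℤ)).toNat := congrArg Fin.val heq
        have h6 : i % (n : ℤ) = j % (n : ℤ) := by omega
        have h7 : (n : ℤ) ∣ j - i := Int.ModEq.dvd h6
        obtain ⟨k, hk⟩ := h7
        have h8 : 0 < (n : ℤ) * k := by omega
        have h9 : (n : ℤ) * k < n * 1 := by omega
        have h10 : 0 < k := by
          by_contra hcon
          push Not at hcon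
          nlinarith
        nlinarith
      · intro i
        apply Fin.ext
        show ((i + (n : ℤ)) % (n : ℤ)).toNat = (i % (n : ℤ)).toNat
        rw [Int.add_emod_right]
    exact hf.isHamiltonian (by rw [Fintype.card_fin]; exact hn)
  · -- the number of edges
    have hinj : Function.Injective (Sym2.map g) := Sym2.map.injective g.injective
    rw [← Set.ncard_image_of_injective _ hinj]
    set E1 : Finset (Sym2 ℕ) := (Finset.range (n - 2)).image (fun t => s(t + 1, t + 2)) with hE1
    set E2 : Finset (Sym2 ℕ) := Y.image (fun y => s(0, y)) with hE2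
    have c1 : E1.card = n - 2 := by
      rw [hE1, Finset.card_image_of_injective, Finset.card_range]
      intro t t' h
      simp only [Sym2.eq_iff] at h
      omega
    have c2 : E2.card = Y.card := by
      rw [hE2, Finset.card_image_of_injective]
      intro t t' h
      simp only [Sym2.eq_iff] at h
      omega
    have hdisj : Disjoint E1 E2 := by
      rw [Finset.disjoint_left]
      intro e he1 he2
      rw [hE1, Finset.mem_image] at he1
      rw [hE2, Finset.mem_image] at he2
      obtain ⟨t, _, rfl⟩ := he1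
      obtain ⟨y, _, hy⟩ := he2
      simp only [Sym2.eq_iff] at hy
      omega
    have hsub : ((E1 ∪ E2 : Finset (Sym2 ℕ)) : Set (Sym2 ℕ)) ⊆
        Sym2.map g '' ((Fan Y).comap g).edgeSet := by
      intro e he
      rw [Finset.mem_coe, Finset.mem_union, hE1, hE2, Finset.mem_image, Finset.mem_image] at he
      rcases he with ⟨t, ht, rfl⟩ | ⟨y, hy, rfl⟩
      · rw [Finset.mem_range] at ht
        refine ⟨s(⟨t + 1, by omega⟩, ⟨t + 2, by omega⟩), ?_, rfl⟩
        show (Fan Y).Adj (t + 1) (t + 2)
        right; right; omega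
      · have hy1 := hY1 y hy
        refine ⟨s(⟨0, by omega⟩, ⟨y, by omega⟩), ?_, rfl⟩
        show (Fan Y).Adj 0 y
        left; exact ⟨rfl, by omega, hy⟩
    calc n - 2 + Y.card = (E1 ∪ E2).card := by
          rw [Finset.card_union_of_disjoint hdisj, c1, c2]
      _ = ((E1 ∪ E2 : Finset (Sym2 ℕ)) : Set (Sym2 ℕ)).ncard := (Set.ncard_coe_finset _).symm
      _ ≤ _ := Set.ncard_le_ncard hsub (Set.toFinite _)

end Pool.Agent.H828.HC
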