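import Mathlib

set_option autoImplicit false

namespace Pool.Agent.H828.HC

open Finset

/-- Golomb rulers of prescribed length from a perfect difference set. -/
theorem ruler_of_perfect (m L q : ℕ) (hL : 0 < L) (hLm : L < m) (D : Finset (ZMod m))
    (hcard : D.card = q + 1)
    (hex : ∀ g : ZMod m, g ≠ 0 → ∃ x ∈ D, ∃ y ∈ D, x - y = g)
    (huniq : ∀ x ∈ D, ∀ y ∈ D, ∀ z ∈ D, ∀ w ∈ D, x ≠ y → x - y = z - w → x = z ∧ y = w) :
    ∃ S : Finset ℕ, (∀ s ∈ S, s ≤ L) ∧ 0 ∈ S ∧ L ∈ S ∧
      (∀ a ∈ S, ∀ b ∈ S, ∀ c ∈ S, ∀ d ∈ S, a < b → c < d → b - a = d - c → a = c ∧ b = d) ∧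
      ∃ r : ℕ, q + 1 ≤ S.card + r ∧ r * (r - 1) ≤ 2 * (m - L) := by
  classical
  have : NeZero m := ⟨by omega⟩
  have hinj : ∀ a b : ℕ, a < m → b < m → (a : ZMod m) = b → a = b := by
    intro a b ha hb h
    rw [ZMod.natCast_eq_natCast_iff'] at h
    rwa [Nat.mod_eq_of_lt ha, Nat.mod_eq_of_lt hb] at h
  have hL0 : (L : ZMod m) ≠ 0 := by
    intro h
    have := hinj L 0 hLm (by omega) (by simpa using h)
    omega
  obtain ⟨x, hx, y, hy, hxy⟩ := hex _ hL0
  set P : ℕ → Prop := fun r => ((r : ZMod m) + y) ∈ D with hP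
  have key : ∀ a b c d : ℕ, a < m → b < m → c < m → d < m → P a → P b → P c → P d → a ≠ b →
      (b : ℤ) - a = (d : ℤ) - c → a = c ∧ b = d := by
    intro a b c d ha hb hc hd pa pb pc pd hab h
    have h1 := huniq _ pb _ pa _ pd _ pc (by
      intro h2
      exact hab (hinj b a hb ha (add_right_cancel h2)).symm) (by
      have h2 : ((b : ℤ) - a : ZMod m) = ((d : ℤ) - c : ZMod m) := by
        have := congrArg (Int.cast : ℤ → ZMod m) h
        push_cast at this ⊢
        exact this
      push_cast at h2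
      rw [add_sub_add_right_eq_sub, add_sub_add_right_eq_sub]
      exact h2)
    exact ⟨hinj a c ha hc (add_right_cancel h1.2), hinj b d hb hd (add_right_cancel h1.1)⟩
  refine ⟨(range (L + 1)).filter P, ?_, ?_, ?_, ?_, ((Ico (L + 1) m).filter P).card, ?_, ?_⟩
  · intro s hs
    rw [mem_filter, mem_range] at hs
    omega
  · rw [mem_filter, mem_range]
    refine ⟨by omega, ?_⟩
    simp only [hP, Nat.cast_zero, zero_add]
    exact hy
  · rw [mem_filter, mem_range]
    refine ⟨by omega, ?_⟩
    simp only [hP]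
    rw [← hxy, sub_add_cancel]
    exact hx
  · intro a ha b hb c hc d hd hab hcd h
    rw [mem_filter, mem_range] at ha hb hc hd
    exact key a b c d (by omega) (by omega) (by omega) (by omega) ha.2 hb.2 hc.2 hd.2 (by omega)
      (by omega)
  · rw [← hcard, ← card_union_of_disjoint]
    · have h1 : D ⊆ ((range (L + 1)).filter P ∪ (Ico (L + 1) m).filter P).image
          (fun r : ℕ => (r : ZMod m) + y) := by
        intro z hz
        rw [mem_image]
        have h2 : (((z - y).val : ℕ) : ZMod m) + y = z := by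
          rw [ZMod.natCast_zmod_val, sub_add_cancel]
        refine ⟨(z - y).val, ?_, h2⟩
        have h3 : P (z - y).val := by
          simp only [hP]
          rw [h2]; exact hz
        have h4 := ZMod.val_lt (z - y)
        rw [mem_union, mem_filter, mem_filter, mem_range, mem_Ico]
        rcases lt_or_ge (z - y).val (L + 1) with h5 | h5
        · exact Or.inl ⟨h5, h3⟩
        · exact Or.inr ⟨⟨h5, h4⟩, h3⟩
      exact (card_le_card h1).trans card_image_le
    · rw [disjoint_left]
      intro a ha hb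
      rw [mem_filter, mem_range] at ha
      rw [mem_filter, mem_Ico] at hb
      omega
  · set T := (Ico (L + 1) m).filter P with hT
    have h1 : T.card * (T.card - 1) = T.offDiag.card := by
      rw [offDiag_card, Nat.mul_sub, mul_one]
    rw [h1]
    have h2 : T.offDiag.card ≤ (Ioo (-((m - L : ℕ) : ℤ)) ((m - L : ℕ) : ℤ)).card := by
      apply card_le_card_of_injOn (fun p : ℕ × ℕ => (p.2 : ℤ) - p.1)
      · intro p hp
        rw [mem_coe, mem_offDiag, hT, mem_filter, mem_filter, mem_Ico, mem_Ico] at hp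
        rw [mem_coe, mem_Ioo]
        show -((m - L : ℕ) : ℤ) < (p.2 : ℤ) - p.1 ∧ (p.2 : ℤ) - p.1 < ((m - L : ℕ) : ℤ)
        omega
      · intro p hp p' hp' h
        rw [mem_coe, mem_offDiag, hT, mem_filter, mem_filter, mem_Ico, mem_Ico] at hp hp'
        have h3 := key p.1 p.2 p'.1 p'.2 (by omega) (by omega) (by omega) (by omega)
          hp.1.2 hp.2.1.2 hp'.1.2 hp'.2.1.2 hp.2.2 h
        exact Prod.ext h3.1 h3.2
    refine h2.trans ?_
    rw [Int.card_Ioo]
    omega

end Pool.Agent.H828.HC
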