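import Pool.Agent.R114.SIC.Sidon
import Pool.Agent.H828.HC.Ruler

set_option autoImplicit false

namespace Pool.Agent.H828.HC

open Finset Pool.Agent.H109R2.SIC

lemma singer_zmod (p : ℕ) [Fact p.Prime] : ∃ D : Finset (ZMod (p ^ 2 + p + 1)),
    D.card = p + 1 ∧ (∀ g : ZMod (p ^ 2 + p + 1), g ≠ 0 → ∃ x ∈ D, ∃ y ∈ D, x - y = g) ∧
    (∀ x ∈ D, ∀ y ∈ D, ∀ z ∈ D, ∀ w ∈ D, x ≠ y → x - y = z - w → x = z ∧ y = w) := by
  classical
  have hcyc : IsCyclic (G3 p) :=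
    isCyclic_of_surjective (QuotientGroup.mk' (H3 p)) (QuotientGroup.mk'_surjective _)
  have hcard : Nat.card (G3 p) = p ^ 2 + p + 1 := by
    rw [Nat.card_eq_fintype_card, card_G3]
  obtain ⟨e⟩ : Nonempty (A3 p ≃+ ZMod (p ^ 2 + p + 1)) := by
    have e1 : Multiplicative (ZMod (Nat.card (G3 p))) ≃* G3 p := zmodCyclicMulEquiv hcyc
    rw [hcard] at e1
    exact ⟨(MulEquiv.toAdditiveLeft e1.symm : Additive (G3 p) ≃+ ZMod (p ^ 2 + p + 1))⟩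
  refine ⟨(D3 p).map e.toEquiv.toEmbedding, ?_, ?_, ?_⟩
  · rw [card_map, card_D3]
  · intro g hg
    have h0 : e.symm g ≠ 0 := by
      intro h
      apply hg
      have := congrArg e h
      rwa [AddEquiv.apply_symm_apply, map_zero] at this
    have h1 := Pool.Agent.R114.SIC.rep_card p (e.symm g) h0
    have h2 : (((D3 p) ×ˢ (D3 p)).filter fun q => q.1 - q.2 = e.symm g).Nonempty := by
      rw [← card_pos, h1]; norm_num
    obtain ⟨q, hq⟩ := h2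
    rw [mem_filter, mem_product] at hq
    refine ⟨e q.1, ?_, e q.2, ?_, ?_⟩
    · rw [mem_map]; exact ⟨q.1, hq.1.1, rfl⟩
    · rw [mem_map]; exact ⟨q.2, hq.1.2, rfl⟩
    · rw [← map_sub, hq.2, AddEquiv.apply_symm_apply]
  · intro x hx y hy z hz w hw hxy h
    rw [mem_map] at hx hy hz hw
    obtain ⟨x, hx, rfl⟩ := hx
    obtain ⟨y, hy, rfl⟩ := hy
    obtain ⟨z, hz, rfl⟩ := hz
    obtain ⟨w, hw, rfl⟩ := hw
    have h1 : e (x - y) = e (z - w) := by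
      rw [map_sub, map_sub]; exact h
    have h2 := e.injective h1
    have h3 : x + w = z + y := by
      rw [sub_eq_sub_iff_add_eq_add] at h2
      exact h2
    rcases Pool.Agent.R114.SIC.sidon p hx hw hz hy h3 with ⟨h4, h5⟩ | ⟨h4, h5⟩
    · rw [h4, ← h5]; exact ⟨rfl, rfl⟩
    · exact absurd (by rw [h4]) hxy

theorem ruler (p : ℕ) (hp : p.Prime) (L : ℕ) (hL : 0 < L) (hLm : L < p ^ 2 + p + 1) :
    ∃ S : Finset ℕ, (∀ s ∈ S, s ≤ L) ∧ 0 ∈ S ∧ L ∈ S ∧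
      (∀ a ∈ S, ∀ b ∈ S, ∀ c ∈ S, ∀ d ∈ S, a < b → c < d → b - a = d - c → a = c ∧ b = d) ∧
      ∃ r : ℕ, p + 1 ≤ S.card + r ∧ r * (r - 1) ≤ 2 * (p ^ 2 + p + 1 - L) := by
  have : Fact p.Prime := ⟨hp⟩
  obtain ⟨D, h1, h2, h3⟩ := singer_zmod p
  exact ruler_of_perfect (p ^ 2 + p + 1) L p hL hLm D h1 h2 h3

end Pool.Agent.H828.HC
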