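import Pool.Agent.H828.HC.Lower
import Pool.Agent.H828.HC.SingerZ
import Pool.Agent.H469R10.HO.Stmts

set_option autoImplicit false

namespace Pool.Agent.H828.HC

open SimpleGraph

/-- The largest number of edges of a Hamiltonian graph on `n` vertices in which any two different
cycles have different lengths. -/
noncomputable def hamMax (n : ℕ) : ℕ :=
  sSup {m | ∃ G : SimpleGraph (Fin n), G.IsHamiltonian ∧ Distinct G ∧ G.edgeSet.ncard = m}

lemma hamMax_bdd (n : ℕ) :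
    BddAbove {m | ∃ G : SimpleGraph (Fin n), G.IsHamiltonian ∧ Distinct G ∧
      G.edgeSet.ncard = m} := by
  refine ⟨Nat.card (Sym2 (Fin n)), ?_⟩
  rintro m ⟨G, _, _, rfl⟩
  have := Set.ncard_le_ncard (Set.subset_univ G.edgeSet) (Set.toFinite _)
  rwa [Set.ncard_univ] at this

lemma lower_prime (n p : ℕ) (hn : 3 ≤ n) (hp : p.Prime) (hnp : n ≤ p ^ 2 + p + 2) :
    (n : ℝ) + p - 2 - √(2 * ((p : ℝ) ^ 2 + p + 3 - n)) ≤ hamMax n := by
  classical
  obtain ⟨S, h1, h2, h3, h4, r, h5, h6⟩ := ruler p hp (n - 2) (by omega) (by omega)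
  obtain ⟨G, g1, g2, g3⟩ := lower_graph n hn (S.image (· + 1))
    (by
      intro y hy
      rw [Finset.mem_image] at hy
      obtain ⟨s, hs, rfl⟩ := hy
      have := h1 s hs
      omega)
    (by
      rw [Finset.mem_image]; exact ⟨0, h2, rfl⟩)
    (by
      rw [Finset.mem_image]; exact ⟨n - 2, h3, by omega⟩)
    (by
      intro a ha b hb c hc d hd hab hcd h
      rw [Finset.mem_image] at ha hb hc hd
      obtain ⟨a, ha, rfl⟩ := ha
      obtain ⟨b, hb, rfl⟩ := hb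
      obtain ⟨c, hc, rfl⟩ := hc
      obtain ⟨d, hd, rfl⟩ := hd
      have := h4 a ha b hb c hc d hd (by omega) (by omega) (by omega)
      omega)
  rw [Finset.card_image_of_injective _ (add_left_injective 1)] at g3
  have h7 : G.edgeSet.ncard ≤ hamMax n := le_csSup (hamMax_bdd n) ⟨G, g1, g2, rfl⟩
  have h8 : n - 2 + (p + 1 - r) ≤ hamMax n := by omega
  have h9 : (n : ℝ) - 2 + (p + 1 - r) ≤ hamMax n := by
    have h10 : n + p + 1 ≤ hamMax n + r + 2 := by omega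
    have h11 : ((n + p + 1 : ℕ) : ℝ) ≤ ((hamMax n + r + 2 : ℕ) : ℝ) := by exact_mod_cast h10
    push_cast at h11
    linarith
  have h10 : (r : ℝ) ≤ 1 + √(2 * ((p : ℝ) ^ 2 + p + 3 - n)) := by
    have h11 : ((r : ℝ) - 1) ^ 2 ≤ 2 * ((p : ℝ) ^ 2 + p + 3 - n) := by
      have h12 : (((2 * (p ^ 2 + p + 1 - (n - 2)) : ℕ)) : ℝ) = 2 * ((p : ℝ) ^ 2 + p + 3 - n) := by
        have : 2 * (p ^ 2 + p + 1 - (n - 2)) + 2 * n = 2 * (p ^ 2 + p + 3) := by omega
        have h13 : ((2 * (p ^ 2 + p + 1 - (n - 2)) + 2 * n : ℕ) : ℝ) = ((2 * (p ^ 2 + p + 3) : ℕ) : ℝ) := by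
          exact_mod_cast this
        push_cast at h13 ⊢
        linarith
      rw [← h12]
      rcases Nat.eq_zero_or_pos r with h0 | h0
      · have : 1 ≤ 2 * (p ^ 2 + p + 1 - (n - 2)) := by omega
        have h13 : (1 : ℝ) ≤ ((2 * (p ^ 2 + p + 1 - (n - 2)) : ℕ) : ℝ) := by exact_mod_cast this
        rw [h0]
        norm_num
        push_cast at h13
        exact h13
      · have h13 : (((r * (r - 1) : ℕ)) : ℝ) ≤ ((2 * (p ^ 2 + p + 1 - (n - 2)) : ℕ) : ℝ) := by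
          exact_mod_cast h6
        have h14 : ((r - 1 : ℕ) : ℝ) = (r : ℝ) - 1 := by
          rw [Nat.cast_sub h0]; norm_num
        rw [Nat.cast_mul, h14] at h13
        have h15 : (1 : ℝ) ≤ r := by exact_mod_cast h0
        nlinarith
    have h12 : (r : ℝ) - 1 ≤ √(2 * ((p : ℝ) ^ 2 + p + 3 - n)) := Real.le_sqrt_of_sq_le h11
    linarith
  linarith

/-- existence of the primes -/
lemma exists_prime (hH : Pool.Agent.H469R10.HO.Hoheisel) : ∃ δ : ℝ, 0 < δ ∧ δ < 1 ∧ ∃ X₀ : ℕ, 2 ≤ X₀ ∧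
    ∀ X Y : ℕ, X₀ ≤ X → (X : ℝ) ^ (1 - δ) ≤ Y → Y ≤ X → ∃ p, p.Prime ∧ X < p ∧ p ≤ X + Y := by
  obtain ⟨δ, η, h1, h2, h3, X₀, h4, h5⟩ := hH
  refine ⟨δ, h1, h2, X₀, h4, ?_⟩
  intro X Y hX hXY hY
  have h6 := h5 X Y hX hXY hY
  have hX2 : 2 ≤ X := le_trans h4 hX
  have hX' : (1 : ℝ) < X := by exact_mod_cast hX2
  have hY0 : (0 : ℝ) < Y := lt_of_lt_of_le (by positivity) hXY
  have h7 : 0 < η * Y / Real.log X := by
    have := Real.log_pos hX'
    positivity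
  have h8 : 0 < ((Finset.Ioc X (X + Y)).filter Nat.Prime).card := by
    have : (0 : ℝ) < (((Finset.Ioc X (X + Y)).filter Nat.Prime).card : ℝ) := lt_of_lt_of_le h7 h6
    exact_mod_cast this
  rw [Finset.card_pos] at h8
  obtain ⟨p, hp⟩ := h8
  rw [Finset.mem_filter, Finset.mem_Ioc] at hp
  exact ⟨p, hp.2, hp.1.1, hp.1.2⟩

theorem lower (hH : Pool.Agent.H469R10.HO.Hoheisel) : ∃ δ : ℝ, 0 < δ ∧ ∃ N : ℕ, ∀ n : ℕ, N ≤ n →
    (n : ℝ) + √n - 10 * (n : ℝ) ^ (1 / 2 - δ : ℝ) ≤ hamMax n := by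
  obtain ⟨δ, hδ0, hδ1, X₀, hX₀, hprime⟩ := exists_prime hH
  -- `X ^ (1 - δ) + 1 ≤ X` for large `X`
  obtain ⟨X₁, hX₁⟩ : ∃ X₁ : ℕ, ∀ X : ℕ, X₁ ≤ X → (X : ℝ) ^ (1 - δ) + 1 ≤ X := by
    have h1 : Filter.Tendsto (fun X : ℕ => (X : ℝ) ^ δ) Filter.atTop Filter.atTop :=
      (tendsto_rpow_atTop hδ0).comp tendsto_natCast_atTop_atTop
    have h2 := (h1.eventually_ge_atTop 2).and (Filter.eventually_ge_atTop 2)
    rw [Filter.eventually_atTop] at h2
    obtain ⟨X₁, hX₁⟩ := h2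
    refine ⟨X₁, fun X hX => ?_⟩
    obtain ⟨h3, h4⟩ := hX₁ X hX
    have hXpos : (0 : ℝ) < X := by
      have : 0 < X := by omega
      exact_mod_cast this
    have h5 : (X : ℝ) ^ (1 - δ) * (X : ℝ) ^ δ = X := by
      rw [← Real.rpow_add hXpos]; simp
    have h6 : (1 : ℝ) ≤ (X : ℝ) ^ (1 - δ) := by
      apply Real.one_le_rpow _ (by linarith)
      have : 1 ≤ X := by omega
      exact_mod_cast this
    nlinarith
  refine ⟨δ / 4, by linarith, max 3 (max (X₀ ^ 2) (X₁ ^ 2)), ?_⟩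
  intro n hn
  have hn3 : 3 ≤ n := le_trans (le_max_left _ _) hn
  have hn0 : X₀ ^ 2 ≤ n := le_trans (le_trans (le_max_left _ _) (le_max_right _ _)) hn
  have hn1 : X₁ ^ 2 ≤ n := le_trans (le_trans (le_max_right _ _) (le_max_right _ _)) hn
  have hnr : (3 : ℝ) ≤ n := by exact_mod_cast hn3
  set z : ℝ := √(n : ℝ) with hz
  have hz2 : z ^ 2 = n := Real.sq_sqrt (by linarith)
  have hz1 : 1 ≤ z := by
    rw [hz, Real.one_le_sqrt]; linarith
  set X : ℕ := ⌈z⌉₊ with hX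
  have hXz : z ≤ X := Nat.le_ceil _
  have hXz' : (X : ℝ) < z + 1 := Nat.ceil_lt_add_one (by linarith)
  have hXX0 : X₀ ≤ X := by
    have h1 : (X₀ : ℝ) ≤ z := by
      rw [hz]
      apply Real.le_sqrt_of_sq_le
      exact_mod_cast hn0
    have : (X₀ : ℝ) ≤ X := h1.trans hXz
    exact_mod_cast this
  have hXX1 : X₁ ≤ X := by
    have h1 : (X₁ : ℝ) ≤ z := by
      rw [hz]
      apply Real.le_sqrt_of_sq_le
      exact_mod_cast hn1
    have : (X₁ : ℝ) ≤ X := h1.trans hXz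
    exact_mod_cast this
  set Y : ℕ := ⌈(X : ℝ) ^ (1 - δ)⌉₊ with hY
  have hYX : (X : ℝ) ^ (1 - δ) ≤ Y := Nat.le_ceil _
  have hXpow0 : 0 ≤ (X : ℝ) ^ (1 - δ) := by positivity
  have hYX' : (Y : ℝ) < (X : ℝ) ^ (1 - δ) + 1 := Nat.ceil_lt_add_one hXpow0
  have hYleX : Y ≤ X := by
    have h1 := hX₁ X hXX1
    have : (Y : ℝ) < X := by linarith
    exact_mod_cast this.le
  obtain ⟨p, hp, hp1, hp2⟩ := hprime X Y hXX0 hYX hYleX
  -- real bounds
  set R : ℝ := z ^ (1 - δ) with hR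
  have hR1 : 1 ≤ R := Real.one_le_rpow hz1 (by linarith)
  have hRz : R ≤ z := by
    have : R ≤ z ^ (1 : ℝ) := Real.rpow_le_rpow_of_exponent_le hz1 (by linarith)
    rwa [Real.rpow_one] at this
  have hXR : (X : ℝ) ^ (1 - δ) ≤ 2 * R := by
    have h1 : (X : ℝ) ≤ 2 * z := by linarith
    calc (X : ℝ) ^ (1 - δ) ≤ (2 * z) ^ (1 - δ) :=
          Real.rpow_le_rpow (by positivity) h1 (by linarith)
      _ = 2 ^ (1 - δ) * z ^ (1 - δ) := Real.mul_rpow (by norm_num) (by linarith)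
      _ ≤ 2 * R := by
          apply mul_le_mul_of_nonneg_right _ (by positivity)
          calc (2 : ℝ) ^ (1 - δ) ≤ 2 ^ (1 : ℝ) :=
                Real.rpow_le_rpow_of_exponent_le (by norm_num) (by linarith)
            _ = 2 := Real.rpow_one _
  have hY3 : (Y : ℝ) ≤ 3 * R := by linarith
  have hpz : z < p := by
    have : (X : ℝ) < p := by exact_mod_cast hp1
    linarith
  have hpz' : (p : ℝ) ≤ z + 4 * R := by
    have : (p : ℝ) ≤ X + Y := by exact_mod_cast hp2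
    linarith
  have hnp : n ≤ p ^ 2 + p + 2 := by
    have h1 : (n : ℝ) < (p : ℝ) ^ 2 := by
      rw [← hz2]
      exact pow_lt_pow_left₀ hpz (by linarith) (by norm_num)
    have h2 : n < p ^ 2 := by exact_mod_cast h1
    omega
  have key := lower_prime n p hn3 hp hnp
  have h1 : 2 * ((p : ℝ) ^ 2 + p + 3 - n) ≤ (8 * √(z * R)) ^ 2 := by
    rw [mul_pow, Real.sq_sqrt (by positivity), ← hz2]
    have h2 : (p : ℝ) ^ 2 ≤ (z + 4 * R) ^ 2 := pow_le_pow_left₀ (by linarith) hpz' 2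
    have h3 : z ≤ z * R := by nlinarith
    have h4 : R * R ≤ z * R := by nlinarith
    have h5 : R ≤ z * R := by nlinarith
    have h6 : 1 ≤ z * R := by nlinarith
    nlinarith
  have h2 : √(2 * ((p : ℝ) ^ 2 + p + 3 - n)) ≤ 8 * √(z * R) := by
    apply Real.sqrt_le_iff.mpr
    exact ⟨by positivity, h1⟩
  have h3 : √(z * R) = (n : ℝ) ^ (1 / 2 - δ / 4 : ℝ) := by
    have e1 : z = (n : ℝ) ^ (1 / 2 : ℝ) := by rw [hz, Real.sqrt_eq_rpow]
    rw [Real.sqrt_eq_rpow, hR]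
    have e2 : z * z ^ (1 - δ) = z ^ (2 - δ) := by
      nth_rw 1 [← Real.rpow_one z]
      rw [← Real.rpow_add (by linarith)]
      congr 1; ring
    rw [e2, e1, ← Real.rpow_mul (by linarith), ← Real.rpow_mul (by linarith)]
    congr 1; ring
  have h4 : 1 ≤ (n : ℝ) ^ (1 / 2 - δ / 4 : ℝ) := by
    apply Real.one_le_rpow (by linarith)
    linarith
  rw [h3] at h2
  linarith

/-- The upper bound for `hamMax`. -/
theorem hamMax_upper (n : ℕ) (hn : 3 ≤ n) :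
    (hamMax n : ℝ) ≤ n + √n + 13 * (n : ℝ) ^ (1 / 4 : ℝ) := by
  have hne : {m | ∃ G : SimpleGraph (Fin n), G.IsHamiltonian ∧ Distinct G ∧
      G.edgeSet.ncard = m}.Nonempty := by
    obtain ⟨G, g1, g2, _⟩ := lower_graph n hn {1, n - 1}
      (by intro y hy; simp only [Finset.mem_insert, Finset.mem_singleton] at hy; omega)
      (by simp) (by simp)
      (by
        intro a ha b hb c hc d hd hab hcd h
        simp only [Finset.mem_insert, Finset.mem_singleton] at ha hb hc hd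
        omega)
    exact ⟨_, G, g1, g2, rfl⟩
  obtain ⟨G, g1, g2, g3⟩ := Nat.sSup_mem hne (hamMax_bdd n)
  have h1 := upper (G := G) (by rw [Fintype.card_fin]; omega) g1 g2
  rw [Fintype.card_fin, g3] at h1
  have h2 : √√(n : ℝ) = (n : ℝ) ^ (1 / 4 : ℝ) := by
    rw [Real.sqrt_eq_rpow, Real.sqrt_eq_rpow, ← Real.rpow_mul (Nat.cast_nonneg _)]
    norm_num
  rw [h2] at h1
  exact h1

end Pool.Agent.H828.HC
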