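import Mathlib

set_option autoImplicit false

namespace Pool.Agent.H828.HC

open SimpleGraph

variable {V : Type*} {G : SimpleGraph V}

/-- `f : ℤ → V` runs around a Hamiltonian cycle of length `n`. -/
structure Ham (G : SimpleGraph V) (n : ℤ) (f : ℤ → V) : Prop where
  adj : ∀ i, G.Adj (f i) (f (i + 1))
  inj : ∀ i j, i < j → j < i + n → f i ≠ f j
  per : ∀ i, f (i + n) = f i

/-- the edges of the Hamiltonian cycle -/
def HamEdge (f : ℤ → V) (e : Sym2 V) : Prop := ∃ t, e = s(f t, f (t + 1))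

variable {n : ℤ} {f : ℤ → V}

lemma Ham.neg (h : Ham G n f) : Ham G n (fun i => f (-i)) where
  adj i := by
    have := (h.adj (-(i + 1))).symm
    have e : -(i + 1) + 1 = -i := by ring
    rw [e] at this
    exact this
  inj i j hij hj := by
    have := h.inj (-j) (-i) (by omega) (by omega)
    exact this.symm
  per i := by
    show f (-(i + n)) = f (-i)
    have := h.per (-(i + n))
    have e : -(i + n) + n = -i := by ring
    rw [e] at this
    exact this.symm

lemma hamEdge_neg {e : Sym2 V} : HamEdge (fun i => f (-i)) e ↔ HamEdge f e := by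
  constructor
  · rintro ⟨t, ht⟩
    refine ⟨-(t + 1), ?_⟩
    have e1 : -(t + 1) + 1 = -t := by ring
    rw [e1, Sym2.eq_swap]
    exact ht
  · rintro ⟨t, ht⟩
    refine ⟨-(t + 1), ?_⟩
    have e1 : -(-(t + 1)) = t + 1 := by ring
    have e2 : -(-(t + 1) + 1) = t := by ring
    show e = s(f (-(-(t + 1))), f (-(-(t + 1) + 1)))
    rw [e1, e2, Sym2.eq_swap]
    exact ht

lemma Ham.ne (h : Ham G n f) {i j : ℤ} (h1 : i ≠ j) (h2 : |i - j| < n) : f i ≠ f j := by
  rw [abs_lt] at h2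
  rcases lt_or_gt_of_ne h1 with h3 | h3
  · exact h.inj i j h3 (by omega)
  · exact (h.inj j i h3 (by omega)).symm

/-- prepend an ascending segment to a path -/
lemma Ham.up_aux (h : Ham G n f) (w : V) (j : ℤ) (q : G.Walk (f j) w) (hq : q.IsPath) :
    ∀ (m : ℕ) (i : ℤ), j = i + m → (m : ℤ) < n → (∀ t, i ≤ t → t < j → f t ∉ q.support) →
    ∃ r : G.Walk (f i) w, r.IsPath ∧ r.length = m + q.length ∧
      (∀ v, v ∈ r.support ↔ v ∈ q.support ∨ ∃ t, i ≤ t ∧ t < j ∧ v = f t) ∧
      (∀ e, ¬ HamEdge f e → (e ∈ r.edges ↔ e ∈ q.edges)) := by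
  intro m
  induction m with
  | zero =>
    intro i hij _ _
    have : j = i := by omega
    subst this
    refine ⟨q, hq, by simp, ?_, fun e _ => Iff.rfl⟩
    intro v
    constructor
    · exact Or.inl
    · rintro (h1 | ⟨t, h1, h2, _⟩)
      · exact h1
      · omega
  | succ m ih =>
    intro i hij hm hsup
    obtain ⟨r, hr, hrl, hrs, hre⟩ := ih (i + 1) (by push_cast at hij; omega)
      (by push_cast at hm; omega) (fun t h1 h2 => hsup t (by omega) h2)
    refine ⟨Walk.cons (h.adj i) r, ?_, ?_, ?_, ?_⟩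
    · rw [Walk.cons_isPath_iff]
      refine ⟨hr, ?_⟩
      rw [hrs]
      rintro (h1 | ⟨t, h1, h2, h3⟩)
      · exact hsup i le_rfl (by push_cast at hij; omega) h1
      · exact h.inj i t (by omega) (by push_cast at hij hm; omega) h3
    · rw [Walk.length_cons, hrl]; ring
    · intro v
      rw [Walk.support_cons, List.mem_cons, hrs]
      constructor
      · rintro (h1 | h1 | ⟨t, h1, h2, h3⟩)
        · exact Or.inr ⟨i, le_rfl, by push_cast at hij; omega, h1⟩
        · exact Or.inl h1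
        · exact Or.inr ⟨t, by omega, h2, h3⟩
      · rintro (h1 | ⟨t, h1, h2, h3⟩)
        · exact Or.inr (Or.inl h1)
        · rcases eq_or_lt_of_le h1 with h4 | h4
          · left; rw [h3, h4]
          · exact Or.inr (Or.inr ⟨t, by omega, h2, h3⟩)
    · intro e he
      rw [Walk.edges_cons, List.mem_cons, hre e he]
      constructor
      · rintro (h1 | h1)
        · exact absurd ⟨i, h1⟩ he
        · exact h1
      · exact Or.inr

lemma Ham.up (h : Ham G n f) {w : V} {i j : ℤ} (hij : i ≤ j) (hn : j < i + n)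
    (q : G.Walk (f j) w) (hq : q.IsPath) (hsup : ∀ t, i ≤ t → t < j → f t ∉ q.support) :
    ∃ r : G.Walk (f i) w, r.IsPath ∧ (r.length : ℤ) = (j - i) + q.length ∧
      (∀ v, v ∈ r.support ↔ v ∈ q.support ∨ ∃ t, i ≤ t ∧ t < j ∧ v = f t) ∧
      (∀ e, ¬ HamEdge f e → (e ∈ r.edges ↔ e ∈ q.edges)) := by
  obtain ⟨r, h1, h2, h3, h4⟩ := h.up_aux w j q hq (j - i).toNat i (by omega) (by omega) hsup
  refine ⟨r, h1, ?_, h3, h4⟩
  rw [h2]; push_cast; omega

lemma Ham.down (h : Ham G n f) {w : V} {i j : ℤ} (hij : j ≤ i) (hn : i < j + n)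
    (q : G.Walk (f j) w) (hq : q.IsPath) (hsup : ∀ t, j < t → t ≤ i → f t ∉ q.support) :
    ∃ r : G.Walk (f i) w, r.IsPath ∧ (r.length : ℤ) = (i - j) + q.length ∧
      (∀ v, v ∈ r.support ↔ v ∈ q.support ∨ ∃ t, j < t ∧ t ≤ i ∧ v = f t) ∧
      (∀ e, ¬ HamEdge f e → (e ∈ r.edges ↔ e ∈ q.edges)) := by
  have key := h.neg.up (i := -i) (j := -j) (w := w) (by omega) (by omega)
  beta_reduce at key
  rw [neg_neg j, neg_neg i] at key
  obtain ⟨r, h1, h2, h3, h4⟩ := key q hq (by
    intro t ht1 ht2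
    exact hsup (-t) (by omega) (by omega))
  refine ⟨r, h1, by rw [h2]; ring, ?_, ?_⟩
  · intro v
    rw [h3]
    constructor
    · rintro (h5 | ⟨t, h5, h6, h7⟩)
      · exact Or.inl h5
      · exact Or.inr ⟨-t, by omega, by omega, h7⟩
    · rintro (h5 | ⟨t, h5, h6, h7⟩)
      · exact Or.inl h5
      · refine Or.inr ⟨-t, by omega, by omega, ?_⟩
        show v = f (-(-t))
        rw [neg_neg]; exact h7
  · intro e he
    exact h4 e (fun h5 => he (hamEdge_neg.mp h5))

/-- there is a cycle of length `ℓ` whose edges outside of the Hamiltonian cycle are those in `T` -/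
def CycSet (G : SimpleGraph V) (f : ℤ → V) (T : Set (Sym2 V)) (ℓ : ℤ) : Prop :=
  ∃ (u : V) (p : G.Walk u u), p.IsCycle ∧ (p.length : ℤ) = ℓ ∧
    ∀ e, ¬ HamEdge f e → (e ∈ p.edges ↔ e ∈ T)

/-- closing a path by an edge -/
lemma close_path {T : Set (Sym2 V)} {u v : V} (q : G.Walk u v) (hq : q.IsPath)
    (hadj : G.Adj v u) (hT : ∀ e, ¬ HamEdge f e → (e ∈ q.edges ↔ e ∈ T))
    (hc : ¬ HamEdge f s(v, u)) (hcT : s(v, u) ∉ T) :
    CycSet G f (insert s(v, u) T) (q.length + 1) := by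
  refine ⟨v, Walk.cons hadj q, ?_, by push_cast [Walk.length_cons]; ring, ?_⟩
  · rw [Walk.cons_isCycle_iff]
    refine ⟨hq, ?_⟩
    rw [hT _ hc]; exact hcT
  · intro e he
    rw [Walk.edges_cons, List.mem_cons, hT e he, Set.mem_insert_iff]

end Pool.Agent.H828.HC
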