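import Pool.Agent.H828.HC.Cycles

set_option autoImplicit false

namespace Pool.Agent.H828.HC

open SimpleGraph

variable {V : Type*} {G : SimpleGraph V} {n : ℤ} {f : ℤ → V}

/-- chords of the Hamiltonian cycle -/
def Chord (G : SimpleGraph V) (f : ℤ → V) (e : Sym2 V) : Prop := e ∈ G.edgeSet ∧ ¬ HamEdge f e

/-- position of a chord under the chord with end points `a`, `b` -/
def InL (f : ℤ → V) (a b : ℤ) (e : Sym2 V) (s : ℤ) : Prop :=
  ∃ x y, a ≤ x ∧ x < y ∧ y ≤ b ∧ e = s(f x, f y) ∧ s = y - x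

def InX (n : ℤ) (f : ℤ → V) (a b : ℤ) (e : Sym2 V) : Prop :=
  ∃ x y, a < x ∧ x < b ∧ b < y ∧ y < a + n ∧ e = s(f x, f y)

lemma Ham.mk_ne1 (h : Ham G n f) {a b x y : ℤ} (h1 : a < x) (h2 : x < b) (h3 : b < a + n) :
    s(f a, f b) ≠ s(f x, f y) := by
  intro he
  rw [Sym2.eq_iff] at he
  rcases he with ⟨h4, _⟩ | ⟨_, h5⟩
  · exact h.inj a x h1 (by omega) h4
  · exact h.inj x b h2 (by omega) h5.symm

lemma Ham.mk_ne2 (h : Ham G n f) {a b x y : ℤ} (h1 : a < y) (h2 : y < b) (h3 : b < a + n) :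
    s(f a, f b) ≠ s(f x, f y) := by
  rw [Sym2.eq_swap (a := f x)]
  exact h.mk_ne1 h1 h2 h3

lemma pairLL (h : Ham G n f) {a b : ℤ} (hb : b < a + n) (hc : Chord G f s(f a, f b))
    {e1 e2 : Sym2 V} (h1 : Chord G f e1) (h2 : Chord G f e2) (hne : e1 ≠ e2) {s1 s2 : ℤ}
    (p1 : InL f a b e1 s1) (p2 : InL f a b e2 s2) :
    CycSet G f {e1, e2} (|s1 - s2| + 2) ∨
      (s(f a, f b) ≠ e1 ∧ s(f a, f b) ≠ e2 ∧ ∃ ℓ, CycSet G f {s(f a, f b), e1, e2} ℓ) := by
  obtain ⟨x1, y1, u1, u2, u3, rfl, rfl⟩ := p1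
  obtain ⟨x2, y2, v1, v2, v3, rfl, rfl⟩ := p2
  have hc0 : G.Adj (f a) (f b) := hc.1
  have h10 : G.Adj (f x1) (f y1) := h1.1
  have h20 : G.Adj (f x2) (f y2) := h2.1
  rcases le_or_gt x1 x2 with hx | hx
  · rcases le_or_gt y2 y1 with hy | hy
    · left
      have key := cyc2 h hx v2 hy (by omega) h10 h20 h1.2 hne
      have e : |(y1 - x1) - (y2 - x2)| + 2 = x2 - x1 + (y1 - y2) + 2 := by
        rw [abs_of_nonneg (by omega)]; ring
      rw [e]; exact key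
    · rcases eq_or_lt_of_le hx with hx' | hx'
      · left
        have key := cyc2 h hx'.ge u2 hy.le (by omega) h20 h10 h2.2 hne.symm
        have e : |(y1 - x1) - (y2 - x2)| + 2 = x1 - x2 + (y2 - y1) + 2 := by
          rw [abs_of_nonpos (by omega)]; ring
        rw [e, Set.pair_comm]; exact key
      · right
        have n1 : s(f a, f b) ≠ s(f x1, f y1) := h.mk_ne2 (by omega) (by omega) hb
        have n2 : s(f a, f b) ≠ s(f x2, f y2) := h.mk_ne1 (by omega) (by omega) hb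
        refine ⟨n1, n2, ?_⟩
        rcases le_or_gt y1 x2 with hz | hz
        · exact cyc3a h u1 u2 hz v2 v3 hb hc0 h10 h20 hc.2 n1 n2
        · exact cyc3b h u1 hx' hz hy v3 hb hc0 h10 h20 hc.2 n1 n2
  · rcases le_or_gt y1 y2 with hy | hy
    · left
      have key := cyc2 h hx.le u2 hy (by omega) h20 h10 h2.2 hne.symm
      have e : |(y1 - x1) - (y2 - x2)| + 2 = x1 - x2 + (y2 - y1) + 2 := by
        rw [abs_of_nonpos (by omega)]; ring
      rw [e, Set.pair_comm]; exact key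
    · right
      have n2 : s(f a, f b) ≠ s(f x2, f y2) := h.mk_ne2 (by omega) (by omega) hb
      have n1 : s(f a, f b) ≠ s(f x1, f y1) := h.mk_ne1 (by omega) (by omega) hb
      refine ⟨n1, n2, ?_⟩
      rw [Set.pair_comm]
      rcases le_or_gt y2 x1 with hz | hz
      · exact cyc3a h v1 v2 hz u2 u3 hb hc0 h20 h10 hc.2 n2 n1
      · exact cyc3b h v1 hx hz hy u3 hb hc0 h20 h10 hc.2 n2 n1

lemma pairLR (h : Ham G n f) {a b : ℤ} (hb : b < a + n)
    {e1 e2 : Sym2 V} (h1 : Chord G f e1) (h2 : Chord G f e2) (hne : e1 ≠ e2) {s1 s2 : ℤ}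
    (p1 : InL f a b e1 s1) (p2 : InL f b (a + n) e2 s2) :
    CycSet G f {e1, e2} (|s1 - (n - s2)| + 2) := by
  obtain ⟨x1, y1, u1, u2, u3, rfl, rfl⟩ := p1
  obtain ⟨x2, y2, v1, v2, v3, rfl, rfl⟩ := p2
  have h10 : G.Adj (f x1) (f y1) := h1.1
  have h20 : G.Adj (f x2) (f y2) := h2.1
  have hp : f (y2 - n) = f y2 := by
    have := h.per (y2 - n)
    rw [sub_add_cancel] at this
    exact this.symm
  have hs : s(f (y2 - n), f x2) = s(f x2, f y2) := by rw [hp, Sym2.eq_swap]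
  have key := cyc2 h (x1 := y2 - n) (x2 := x1) (y2 := y1) (y1 := x2) (by omega) u2 (by omega)
    (by omega) (by rw [hp]; exact h20.symm) h10 (by rw [hs]; exact h2.2)
    (by rw [hs]; exact hne.symm)
  rw [hs, Set.pair_comm] at key
  have e : |(y1 - x1) - (n - (y2 - x2))| + 2 = x1 - (y2 - n) + (x2 - y1) + 2 := by
    rw [abs_of_nonpos (by omega)]; ring
  rw [e]; exact key

lemma pairX (h : Ham G n f) {a b : ℤ} (hc : Chord G f s(f a, f b)) (hb : b < a + n)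
    {e1 e2 : Sym2 V} (h1 : Chord G f e1) (h2 : Chord G f e2) (hne : e1 ≠ e2)
    (p1 : InX n f a b e1) (p2 : InX n f a b e2) :
    s(f a, f b) ≠ e1 ∧ s(f a, f b) ≠ e2 ∧ ∃ ℓ, CycSet G f {s(f a, f b), e1, e2} ℓ := by
  obtain ⟨x1, y1, u1, u2, u3, u4, rfl⟩ := p1
  obtain ⟨x2, y2, v1, v2, v3, v4, rfl⟩ := p2
  have hc0 : G.Adj (f a) (f b) := hc.1
  have h10 : G.Adj (f x1) (f y1) := h1.1
  have h20 : G.Adj (f x2) (f y2) := h2.1
  have n1 : s(f a, f b) ≠ s(f x1, f y1) := h.mk_ne1 u1 u2 hb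
  have n2 : s(f a, f b) ≠ s(f x2, f y2) := h.mk_ne1 v1 v2 hb
  refine ⟨n1, n2, ?_⟩
  rcases lt_trichotomy x1 x2 with hx | hx | hx
  · exact cycX1 h u1 hx v2 u3 v3 u4 v4 hc0 h10 h20 hc.2 n1 n2
  · subst hx
    rcases lt_trichotomy y1 y2 with hy | hy | hy
    · rw [Set.pair_comm]
      exact cycX2 h u1 u2 u3 hy v4 hc0 h20 h10 h2.2 n2.symm hne.symm
    · exact absurd (by rw [hy]) hne
    · exact cycX2 h u1 u2 v3 hy u4 hc0 h10 h20 h1.2 n1.symm hne
  · rw [Set.pair_comm]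
    exact cycX1 h v1 hx u2 v3 u3 v4 u4 hc0 h20 h10 hc.2 n2 n1

/-- every chord has a position relative to a given one -/
lemma classify (h : Ham G n f) (hsurj : ∀ (a : ℤ) (v : V), ∃ i, a ≤ i ∧ i < a + n ∧ f i = v)
    {a b : ℤ} (hab : a < b) {e : Sym2 V} (he : Chord G f e) :
    (∃ s, InL f a b e s) ∨ (∃ s, InL f b (a + n) e s) ∨ InX n f a b e := by
  induction e using Sym2.ind with
  | _ u v =>
    obtain ⟨i, hi1, hi2, rfl⟩ := hsurj a u
    obtain ⟨j, hj1, hj2, rfl⟩ := hsurj a v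
    have key : ∀ i j : ℤ, a ≤ i → i < j → j < a + n → 
        (∃ s, InL f a b s(f i, f j) s) ∨ (∃ s, InL f b (a + n) s(f i, f j) s) ∨
          InX n f a b s(f i, f j) := by
      intro i j h1 h2 h3
      rcases le_or_gt j b with h4 | h4
      · exact Or.inl ⟨_, i, j, h1, h2, h4, rfl, rfl⟩
      · rcases le_or_gt b i with h5 | h5
        · exact Or.inr (Or.inl ⟨_, i, j, h5, h2, h3.le, rfl, rfl⟩)
        · rcases eq_or_lt_of_le h1 with h6 | h6
          · subst h6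
            refine Or.inr (Or.inl ⟨_, j, a + n, h4.le, h3, le_rfl, ?_, rfl⟩)
            rw [h.per a, Sym2.eq_swap]
          · exact Or.inr (Or.inr ⟨i, j, h6, h5, h4, h3, rfl⟩)
    have hij : i ≠ j := by
      rintro rfl
      have : G.Adj (f i) (f i) := he.1
      exact this.ne rfl
    rcases lt_or_gt_of_ne hij with h1 | h1
    · exact key i j hi1 h1 hj2
    · have := key j i hj1 h1 hi2
      rw [Sym2.eq_swap]
      exact this

/-- positions under or above the chord `a b` -/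
def Pos (n : ℤ) (f : ℤ → V) (a b : ℤ) (e : Sym2 V) (s : ℤ) : Prop :=
  InL f a b e s ∨ ∃ s', InL f b (a + n) e s' ∧ s = n - s'

lemma pairA (h : Ham G n f) {a b : ℤ} (hab : a < b) (hb : b < a + n) (hc : Chord G f s(f a, f b))
    {e1 e2 : Sym2 V} (h1 : Chord G f e1) (h2 : Chord G f e2) (hne : e1 ≠ e2) {s1 s2 : ℤ}
    (p1 : Pos n f a b e1 s1) (p2 : Pos n f a b e2 s2) :
    CycSet G f {e1, e2} (|s1 - s2| + 2) ∨
      (s(f a, f b) ≠ e1 ∧ s(f a, f b) ≠ e2 ∧ ∃ ℓ, CycSet G f {s(f a, f b), e1, e2} ℓ) := by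
  rcases p1 with p1 | ⟨t1, p1, rfl⟩
  · rcases p2 with p2 | ⟨t2, p2, rfl⟩
    · exact pairLL h hb hc h1 h2 hne p1 p2
    · exact Or.inl (pairLR h hb h1 h2 hne p1 p2)
  · rcases p2 with p2 | ⟨t2, p2, rfl⟩
    · left
      have := pairLR h hb h2 h1 hne.symm p2 p1
      rw [Set.pair_comm, abs_sub_comm]
      exact this
    · have hs : s(f b, f (a + n)) = s(f a, f b) := by rw [h.per a, Sym2.eq_swap]
      have := pairLL h (a := b) (b := a + n) (by omega) (by rw [hs]; exact hc) h1 h2 hne p1 p2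
      rw [hs] at this
      have e : |(n - t1) - (n - t2)| = |t1 - t2| := by
        rw [abs_sub_comm]; congr 1; ring
      rw [e]
      exact this

lemma Pos.range (hn : 0 < n) {a b : ℤ} (hab : a < b) (hb : b < a + n) {e : Sym2 V} {s : ℤ}
    (p : Pos n f a b e s) : 0 < s ∧ s < n := by
  rcases p with ⟨x, y, h1, h2, h3, _, h4⟩ | ⟨s', ⟨x, y, h1, h2, h3, _, h4⟩, h5⟩
  · omega
  · omega

end Pool.Agent.H828.HC
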