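import Pool.Agent.H828.HC.Count

set_option autoImplicit false

namespace Pool.Agent.H828.HC

open SimpleGraph Finset

variable {V : Type*} {G : SimpleGraph V} {n : ℤ} {f : ℤ → V}

lemma exists_ham [Fintype V] [DecidableEq V] {a : V} (p : G.Walk a a) (hp : p.IsHamiltonianCycle) :
    ∃ f : ℤ → V, Ham G (Fintype.card V) f ∧
      (∀ (a : ℤ) (v : V), ∃ i, a ≤ i ∧ i < a + Fintype.card V ∧ f i = v) := by
  set N : ℤ := ((Fintype.card V : ℕ) : ℤ) with hN
  have hl : p.length = Fintype.card V := hp.length_eq
  have h3 := hp.isCycle.three_le_length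
  have hN0 : 0 < N := by omega
  have hinj := hp.isCycle.getVert_injOn'
  have hend : p.getVert p.length = p.getVert 0 := by
    rw [Walk.getVert_length, Walk.getVert_zero]
  refine ⟨fun i => p.getVert (i % N).toNat, ⟨?_, ?_, ?_⟩, ?_⟩
  · intro i
    have h1 := Int.emod_nonneg i hN0.ne'
    have h2 := Int.emod_lt_of_pos i hN0
    have h4 := p.adj_getVert_succ (i := (i % N).toNat) (by omega)
    rcases eq_or_ne (i % N + 1) N with h5 | h5
    · have h6 : (i + 1) % N = 0 := by
        rw [Int.add_emod, Int.emod_eq_of_lt (a := 1) (by norm_num) (by omega), h5, Int.emod_self]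
      have h7 : (i % N).toNat + 1 = p.length := by omega
      rw [h7, hend] at h4
      show G.Adj (p.getVert (i % N).toNat) (p.getVert ((i + 1) % N).toNat)
      rw [h6]
      exact h4
    · have h6 : (i + 1) % N = i % N + 1 := by
        rw [Int.add_emod, Int.emod_eq_of_lt (a := 1) (by norm_num) (by omega)]
        exact Int.emod_eq_of_lt (by omega) (by omega)
      show G.Adj (p.getVert (i % N).toNat) (p.getVert ((i + 1) % N).toNat)
      rw [h6]
      have h7 : (i % N + 1).toNat = (i % N).toNat + 1 := by omega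
      rw [h7]
      exact h4
  · intro i j hij hj heq
    have h1 := Int.emod_nonneg i hN0.ne'
    have h2 := Int.emod_lt_of_pos i hN0
    have h1' := Int.emod_nonneg j hN0.ne'
    have h2' := Int.emod_lt_of_pos j hN0
    have h4 := hinj (x₁ := (i % N).toNat) (x₂ := (j % N).toNat)
      (by rw [Set.mem_ofPred_eq]; omega) (by rw [Set.mem_ofPred_eq]; omega) heq
    have h5 : i % N = j % N := by omega
    have h7 : N ∣ j - i := Int.ModEq.dvd h5
    obtain ⟨k, hk⟩ := h7
    have h8 : 0 < N * k := by omega
    have h9 : N * k < N * 1 := by omega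
    have h10 : 0 < k := by
      by_contra hcon
      push Not at hcon
      nlinarith
    nlinarith
  · intro i
    simp
  · intro b v
    obtain ⟨k, hk, hkl⟩ := Walk.mem_support_iff_exists_getVert.mp (hp.mem_support v)
    have h1 := Int.emod_nonneg ((k : ℤ) - b) hN0.ne'
    have h2 := Int.emod_lt_of_pos ((k : ℤ) - b) hN0
    refine ⟨b + ((k : ℤ) - b) % N, by omega, by omega, ?_⟩
    have h4 : (b + ((k : ℤ) - b) % N) % N = (k : ℤ) % N := by
      rw [Int.add_emod_emod]; congr 1; ring
    show p.getVert ((b + ((k : ℤ) - b) % N) % N).toNat = v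
    rw [h4]
    rcases eq_or_lt_of_le hkl with h5 | h5
    · rw [h5] at hk ⊢
      have h6 : ((p.length : ℤ) % N) = 0 := by
        rw [hl]; exact Int.emod_self
      rw [h6, ← hk, hend]; rfl
    · rw [Int.emod_eq_of_lt (by omega) (by omega)]
      simpa using hk

end Pool.Agent.H828.HC
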